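import Pool.Agent.Helper65.OneTape.Defs

/-! The language of lists with a coincidence. -/

namespace Pool.Agent.Helper65.OneTape

inductive Letter
  | bit (v : Bool)
  | hash
  | dol
  deriving DecidableEq

def letter : Bool → Bool → Letter
  | false, v => .bit v
  | true, false => .hash
  | true, true => .dol

/-- two input bits encode one letter -/
def decode : List Bool → List Letter
  | a :: b :: w => letter a b :: decode w
  | _ => []

/-- rows terminated by `hash` (dollars are ignored, so is an unterminated last row);
`cur` is the beginning of the first row -/
def rowsOf : List Bool → List Letter → List (List Bool)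
  | _, [] => []
  | cur, .bit v :: u => rowsOf (cur ++ [v]) u
  | cur, .hash :: u => cur :: rowsOf [] u
  | cur, .dol :: u => rowsOf cur u

/-- rows before the first dollar -/
def rowsX (w : List Bool) : List (List Bool) := rowsOf [] ((decode w).takeWhile (· ≠ .dol))

/-- rows after the first dollar -/
def rowsY (w : List Bool) : List (List Bool) := rowsOf [] ((decode w).dropWhile (· ≠ .dol))

/-- both lists of rows are triangular with the same number of rows, and some two rows with the
same index are equal -/
def Lang : Set (List Bool) :=
  {w | ∃ r, (rowsX w).map List.length = List.range' 1 r ∧
    (rowsY w).map List.length = List.range' 1 r ∧ ∃ p ∈ (rowsX w).zip (rowsY w), p.1 = p.2}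

end Pool.Agent.Helper65.OneTape
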