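import Mathlib

/-! One-tape Turing machines: definitions for the result on `MP_34c247_lc`. -/

namespace Pool.Agent.Helper65.OneTape

/-- Content of the cell `z` of a two-way infinite tape on which the word `w` is written on the
cells `0, …, |w| - 1`; `none` outside the word. -/
def cell (w : List Bool) (z : ℤ) : Option Bool := if 0 ≤ z then w[z.toNat]? else none

/-- One step of a one-tape machine with transition function `δ` in the configuration
`c = (state, head position, tape)`. The machine has halted if `out` is defined at the present
state; otherwise, in state `q`, reading `a`, the value `δ q a` gives the new state, the symbol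
written on the scanned cell and the move `-1`, `0` or `1` of the head. -/
def step {Q Γ α : Type} (out : Q → Option α) (δ : Q → Γ → Q × Γ × SignType)
    (c : Q × ℤ × (ℤ → Γ)) : Q × ℤ × (ℤ → Γ) :=
  if (out c.1).isSome then c
  else
    ((δ c.1 (c.2.2 c.2.1)).1, c.2.1 + ((δ c.1 (c.2.2 c.2.1)).2.2 : ℤ),
      Function.update c.2.2 c.2.1 (δ c.1 (c.2.2 c.2.1)).2.1)

/-- The configuration after `t` steps, started from the configuration `c`; the step from time `i`
to time `i + 1` uses the transition function `δ i`. -/
def run {Q Γ α : Type} (out : Q → Option α) (δ : ℕ → Q → Γ → Q × Γ × SignType)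
    (c : Q × ℤ × (ℤ → Γ)) : ℕ → Q × ℤ × (ℤ → Γ)
  | 0 => c
  | t + 1 => step out (δ t) (run out δ c t)

/-- The coin used at time `t`, for a finite sequence `ω` of coins. -/
def coin {N : ℕ} (ω : Fin N → Bool) (t : ℕ) : Bool := if h : t < N then ω ⟨t, h⟩ else false

end Pool.Agent.Helper65.OneTape
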