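import Mathlib
import Pool.Agent.Helper65.OneTape.Defs

/-! Two-cut transcripts: rank lower bound for deterministic one-tape machines. -/

namespace Pool.Agent.Helper65.OneTape

open Finset

section
variable {Q Γ : Type}

/-- crossing record of the cut `z` at time `t` -/
noncomputable def cr (A : ℕ → Q × ℤ × (ℤ → Γ)) (z : ℤ) (t : ℕ) : Option Q :=
  open Classical in
  if ((A t).2.1 < z ↔ (A (t + 1)).2.1 < z) then none else some (A (t + 1)).1

/-- `A` is a computation of the (time dependent, never halting) machine `D`. -/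
def IsRun (D : ℕ → Q → Γ → Q × Γ × SignType) (A : ℕ → Q × ℤ × (ℤ → Γ)) : Prop :=
  ∀ t, A (t + 1) = ((D t (A t).1 ((A t).2.2 (A t).2.1)).1,
     (A t).2.1 + ((D t (A t).1 ((A t).2.2 (A t).2.1)).2.2 : ℤ),
     Function.update (A t).2.2 (A t).2.1 (D t (A t).1 ((A t).2.2 (A t).2.1)).2.1)

/-- the invariant of the hybrid lemma -/
structure Inv (p q : ℤ) (A B C : Q × ℤ × (ℤ → Γ)) : Prop where
  sp : A.2.1 < p ↔ B.2.1 < p
  sq : A.2.1 < q ↔ B.2.1 < q
  tA : ∀ z, z < q → C.2.2 z = A.2.2 z
  tB : ∀ z, p ≤ z → C.2.2 z = B.2.2 z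
  cA : A.2.1 < q → C.2.1 = A.2.1 ∧ C.1 = A.1
  cB : p ≤ A.2.1 → C.2.1 = B.2.1 ∧ C.1 = B.1

lemma cast_sign_le (s : SignType) : (s : ℤ) ≤ 1 := by cases s <;> simp

lemma neg_one_le_cast_sign (s : SignType) : -1 ≤ (s : ℤ) := by cases s <;> simp

lemma IsRun.head_le {D : ℕ → Q → Γ → Q × Γ × SignType} {A : ℕ → Q × ℤ × (ℤ → Γ)}
    (h : IsRun D A) (t : ℕ) : (A (t + 1)).2.1 ≤ (A t).2.1 + 1 := by
  rw [h t]; have := cast_sign_le (D t (A t).1 ((A t).2.2 (A t).2.1)).2.2
  simp only; linarith

lemma IsRun.le_head {D : ℕ → Q → Γ → Q × Γ × SignType} {A : ℕ → Q × ℤ × (ℤ → Γ)}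
    (h : IsRun D A) (t : ℕ) : (A t).2.1 - 1 ≤ (A (t + 1)).2.1 := by
  rw [h t]; have := neg_one_le_cast_sign (D t (A t).1 ((A t).2.2 (A t).2.1)).2.2
  simp only; linarith

/-- two computations in the same state, at the same head position and reading the same symbol make
the same step -/
lemma step_same {D : ℕ → Q → Γ → Q × Γ × SignType} {A C : ℕ → Q × ℤ × (ℤ → Γ)}
    (hA : IsRun D A) (hC : IsRun D C) (t : ℕ) (h1 : (C t).2.1 = (A t).2.1)
    (h2 : (C t).1 = (A t).1) (h3 : (C t).2.2 (A t).2.1 = (A t).2.2 (A t).2.1) :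
    (C (t + 1)).2.1 = (A (t + 1)).2.1 ∧ (C (t + 1)).1 = (A (t + 1)).1 ∧
    ∃ b, (A (t + 1)).2.2 = Function.update (A t).2.2 (A t).2.1 b ∧
      (C (t + 1)).2.2 = Function.update (C t).2.2 (A t).2.1 b := by
  have e1 := hA t
  have e2 := hC t
  rw [h1, h2, h3] at e2
  refine ⟨?_, ?_, (D t (A t).1 ((A t).2.2 (A t).2.1)).2.1, ?_, ?_⟩
  · rw [e1, e2]
  · rw [e1, e2]
  · rw [e1]
  · rw [e2]

lemma tape_step {D : ℕ → Q → Γ → Q × Γ × SignType} {A : ℕ → Q × ℤ × (ℤ → Γ)}
    (hA : IsRun D A) (t : ℕ) (z : ℤ) (hz : z ≠ (A t).2.1) :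
    (A (t + 1)).2.2 z = (A t).2.2 z := by
  rw [hA t]; simp only; rw [Function.update_of_ne hz]

lemma cr_eq_none_iff (A : ℕ → Q × ℤ × (ℤ → Γ)) (z : ℤ) (t : ℕ) :
    cr A z t = none ↔ ((A t).2.1 < z ↔ (A (t + 1)).2.1 < z) := by
  unfold cr; split_ifs with h <;> simp [h]

lemma cr_of_not {A : ℕ → Q × ℤ × (ℤ → Γ)} {z : ℤ} {t : ℕ}
    (h : ¬ ((A t).2.1 < z ↔ (A (t + 1)).2.1 < z)) : cr A z t = some (A (t + 1)).1 := by
  unfold cr; rw [if_neg h]

lemma prop_aux {a a' b b' : Prop} (h : (a ↔ a') ↔ (b ↔ b')) (h0 : a ↔ b) : a' ↔ b' := by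
  tauto

lemma Inv.step {D : ℕ → Q → Γ → Q × Γ × SignType} {A B C : ℕ → Q × ℤ × (ℤ → Γ)}
    (hA : IsRun D A) (hB : IsRun D B) (hC : IsRun D C) {p q : ℤ} (hpq : p ≤ q) {t : ℕ}
    (I : Inv p q (A t) (B t) (C t)) (hp : cr A p t = cr B p t) (hq : cr A q t = cr B q t) :
    Inv p q (A (t + 1)) (B (t + 1)) (C (t + 1)) := by
  have hpn : ((A t).2.1 < p ↔ (A (t + 1)).2.1 < p) ↔ ((B t).2.1 < p ↔ (B (t + 1)).2.1 < p) := by
    rw [← cr_eq_none_iff, ← cr_eq_none_iff, hp]
  have hqn : ((A t).2.1 < q ↔ (A (t + 1)).2.1 < q) ↔ ((B t).2.1 < q ↔ (B (t + 1)).2.1 < q) := by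
    rw [← cr_eq_none_iff, ← cr_eq_none_iff, hq]
  have sp' : (A (t + 1)).2.1 < p ↔ (B (t + 1)).2.1 < p := prop_aux hpn I.sp
  have sq' : (A (t + 1)).2.1 < q ↔ (B (t + 1)).2.1 < q := prop_aux hqn I.sq
  have a1 := hA.head_le t
  have a2 := hA.le_head t
  have b1 := hB.head_le t
  have b2 := hB.le_head t
  have stp : ¬ ((A t).2.1 < p ↔ (A (t + 1)).2.1 < p) → (A (t + 1)).1 = (B (t + 1)).1 := by
    intro h
    have h' : ¬ ((B t).2.1 < p ↔ (B (t + 1)).2.1 < p) := by rwa [← hpn]
    rw [cr_of_not h, cr_of_not h'] at hp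
    exact Option.some.inj hp
  have stq : ¬ ((A t).2.1 < q ↔ (A (t + 1)).2.1 < q) → (A (t + 1)).1 = (B (t + 1)).1 := by
    intro h
    have h' : ¬ ((B t).2.1 < q ↔ (B (t + 1)).2.1 < q) := by rwa [← hqn]
    rw [cr_of_not h, cr_of_not h'] at hq
    exact Option.some.inj hq
  rcases lt_or_ge (A t).2.1 q with hlt | hge
  · -- `C` follows `A`
    obtain ⟨c1, c2⟩ := I.cA hlt
    obtain ⟨e1, e2, b, e3, e4⟩ := step_same hA hC t c1 c2 (I.tA _ hlt)
    refine ⟨sp', sq', ?_, ?_, fun _ => ⟨e1, e2⟩, ?_⟩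
    · intro z hz
      rw [e3, e4]
      by_cases h : z = (A t).2.1
      · subst h; simp
      · rw [Function.update_of_ne h, Function.update_of_ne h]; exact I.tA z hz
    · intro z hz
      rcases lt_or_ge (A t).2.1 p with hlt' | hge'
      · have hb : (B t).2.1 < p := I.sp.1 hlt'
        rw [e4, Function.update_of_ne (by omega), tape_step hB t z (by omega)]
        exact I.tB z hz
      · obtain ⟨d1, d2⟩ := I.cB hge'
        obtain ⟨f1, f2, b', f3, f4⟩ := step_same hB hC t d1 d2 (I.tB _ (by omega))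
        rw [f3, f4]
        by_cases h : z = (B t).2.1
        · subst h; simp
        · rw [Function.update_of_ne h, Function.update_of_ne h]; exact I.tB z hz
    · intro hz
      rcases lt_or_ge (A t).2.1 p with hlt' | hge'
      · have hb : (B t).2.1 < p := I.sp.1 hlt'
        have hn : ¬ ((A t).2.1 < p ↔ (A (t + 1)).2.1 < p) := by
          intro h; have := h.1 hlt'; omega
        have hb' : ¬ (B (t + 1)).2.1 < p := by rw [← sp']; omega
        refine ⟨?_, ?_⟩
        · rw [e1]; omega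
        · rw [e2]; exact stp hn
      · obtain ⟨d1, d2⟩ := I.cB hge'
        obtain ⟨f1, f2, b', f3, f4⟩ := step_same hB hC t d1 d2 (I.tB _ (by omega))
        exact ⟨f1, f2⟩
  · -- `C` follows `B`
    obtain ⟨d1, d2⟩ := I.cB (by omega)
    have hb : ¬ (B t).2.1 < q := by rw [← I.sq]; omega
    obtain ⟨f1, f2, b', f3, f4⟩ := step_same hB hC t d1 d2 (I.tB _ (by omega))
    refine ⟨sp', sq', ?_, ?_, ?_, fun _ => ⟨f1, f2⟩⟩
    · intro z hz
      rw [f4, Function.update_of_ne (by omega), tape_step hA t z (by omega)]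
      exact I.tA z hz
    · intro z hz
      rw [f3, f4]
      by_cases h : z = (B t).2.1
      · subst h; simp
      · rw [Function.update_of_ne h, Function.update_of_ne h]; exact I.tB z hz
    · intro hz
      have hn : ¬ ((A t).2.1 < q ↔ (A (t + 1)).2.1 < q) := by
        intro h; have := h.2 hz; omega
      have hb' : (B (t + 1)).2.1 < q := sq'.1 hz
      refine ⟨?_, ?_⟩
      · rw [f1]; omega
      · rw [f2]; exact (stq hn).symm

lemma inv_run {D : ℕ → Q → Γ → Q × Γ × SignType} {A B C : ℕ → Q × ℤ × (ℤ → Γ)}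
    (hA : IsRun D A) (hB : IsRun D B) (hC : IsRun D C) {p q : ℤ} (hpq : p ≤ q) (T : ℕ)
    (I : Inv p q (A 0) (B 0) (C 0)) (hp : ∀ t, t < T → cr A p t = cr B p t)
    (hq : ∀ t, t < T → cr A q t = cr B q t) :
    ∀ t, t ≤ T → Inv p q (A t) (B t) (C t) := by
  intro t
  induction t with
  | zero => intro _; exact I
  | succ t ih => intro ht; exact (ih (by omega)).step hA hB hC hpq (hp t (by omega)) (hq t (by omega))

lemma cr_hybrid {D : ℕ → Q → Γ → Q × Γ × SignType} {A B C : ℕ → Q × ℤ × (ℤ → Γ)}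
    (hA : IsRun D A) (hC : IsRun D C) {p q : ℤ} (hpq : p ≤ q) {t : ℕ}
    (I : Inv p q (A t) (B t) (C t)) (I' : Inv p q (A (t + 1)) (B (t + 1)) (C (t + 1)))
    {z : ℤ} (hz : z ≤ q) : cr C z t = cr A z t := by
  rcases lt_or_ge (A t).2.1 q with hlt | hge
  · obtain ⟨c1, c2⟩ := I.cA hlt
    obtain ⟨e1, e2, b, e3, e4⟩ := step_same hA hC t c1 c2 (I.tA _ hlt)
    unfold cr
    rw [c1, e1, e2]
  · obtain ⟨d1, d2⟩ := I.cB (by omega)
    have hb : ¬ (B t).2.1 < q := by rw [← I.sq]; omega
    rcases lt_or_ge (A (t + 1)).2.1 q with hlt' | hge'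
    · obtain ⟨c1, c2⟩ := I'.cA hlt'
      unfold cr
      rw [c1, c2]
      have h1 : (C t).2.1 < z ↔ (A t).2.1 < z := by rw [d1]; constructor <;> intro h <;> omega
      simp only [h1]
    · obtain ⟨f1, f2⟩ := I'.cB (by omega)
      have hb' : ¬ (B (t + 1)).2.1 < q := by rw [← I'.sq]; omega
      have e1 : cr C z t = none := by rw [cr_eq_none_iff, d1, f1]; constructor <;> intro h <;> omega
      have e2 : cr A z t = none := by rw [cr_eq_none_iff]; constructor <;> intro h <;> omega
      rw [e1, e2]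

end

section count

/-- number of crossings of the cut `z` before time `T` -/
noncomputable def ncr {Q Γ : Type} (A : ℕ → Q × ℤ × (ℤ → Γ)) (z : ℤ) (T : ℕ) : ℕ :=
  open Classical in ((Finset.univ : Finset (Fin T)).filter fun t : Fin T => cr A z (t : ℕ) ≠ none).card

lemma exists_cheap {Q Γ : Type} {D : ℕ → Q → Γ → Q × Γ × SignType} {A : ℕ → Q × ℤ × (ℤ → Γ)}
    (hA : IsRun D A) (a : ℤ) (N T : ℕ) (hN : 0 < N) :
    ∃ i : ℕ, i < N ∧ ncr A (a + i) T ≤ T / N := by
  classical
  by_contra hcon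
  push Not at hcon
  have h1 : ∑ i ∈ Finset.range N, ncr A (a + i) T ≤ T := by
    unfold ncr
    have : ∀ i : ℕ, ((Finset.univ : Finset (Fin T)).filter fun t : Fin T => cr A (a + i) (t : ℕ) ≠ none).card
        = ∑ t : Fin T, if cr A (a + i) (t : ℕ) ≠ none then 1 else 0 := by
      intro i; rw [Finset.card_filter]
    simp only [this]
    rw [Finset.sum_comm]
    calc ∑ t : Fin T, ∑ i ∈ Finset.range N, (if cr A (a + i) (t : ℕ) ≠ none then 1 else 0)
        ≤ ∑ t : Fin T, 1 := by
          apply Finset.sum_le_sum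
          intro t _
          rw [← Finset.card_filter, Finset.card_le_one]
          intro i hi j hj
          simp only [Finset.mem_filter, Finset.mem_range, ne_eq, cr_eq_none_iff] at hi hj
          have a1 := hA.head_le t
          have a2 := hA.le_head t
          omega
      _ = T := by simp
  have h2 : N * (T / N + 1) ≤ ∑ i ∈ Finset.range N, ncr A (a + i) T := by
    calc N * (T / N + 1) = ∑ i ∈ Finset.range N, (T / N + 1) := by simp
      _ ≤ _ := by
        apply Finset.sum_le_sum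
        intro i hi
        exact hcon i (Finset.mem_range.1 hi)
  have h3 : T < N * (T / N + 1) := by
    have := Nat.lt_mul_div_succ T hN
    exact this
  omega

lemma card_small_finset {α : Type} [Fintype α] [DecidableEq α] (K : ℕ) :
    Fintype.card {s : Finset α // s.card ≤ K} ≤ (Fintype.card α + 1) ^ K := by
  classical
  have hs : Function.Surjective (fun g : Fin K → Option α =>
      (if h : (Finset.univ.filter fun a => ∃ i, g i = some a).card ≤ K then
        ⟨Finset.univ.filter fun a => ∃ i, g i = some a, h⟩ else ⟨∅, by simp⟩ :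
        {s : Finset α // s.card ≤ K})) := by
    rintro ⟨s, hs⟩
    have : Fintype.card s ≤ Fintype.card (Fin K) := by simpa using hs
    obtain ⟨e⟩ : Nonempty (s ↪ Fin K) := Function.Embedding.nonempty_of_card_le this
    refine ⟨fun i => (Function.partialInv e i).map Subtype.val, ?_⟩
    have key : (Finset.univ.filter fun a => ∃ i, (Function.partialInv e i).map Subtype.val = some a)
        = s := by
      ext a
      simp only [Finset.mem_filter, Finset.mem_univ, true_and, Option.map_eq_some_iff]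
      constructor
      · rintro ⟨i, b, _, rfl⟩; exact b.2
      · intro ha
        exact ⟨e ⟨a, ha⟩, ⟨a, ha⟩, Function.partialInv_left e.injective _, rfl⟩
    simp only [key]
    rw [dif_pos hs]
  have := Fintype.card_le_of_surjective _ hs
  simpa using this

lemma card_small_fun {Q : Type} [Fintype Q] [DecidableEq Q] (T K : ℕ) :
    Fintype.card {c : Fin T → Option Q //
      ((Finset.univ : Finset (Fin T)).filter fun t => c t ≠ none).card ≤ K}
      ≤ (T * Fintype.card Q + 1) ^ K := by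
  classical
  have key : ∀ c : Fin T → Option Q,
      ((Finset.univ : Finset (Fin T × Q)).filter fun x => c x.1 = some x.2).card =
      ((Finset.univ : Finset (Fin T)).filter fun t => c t ≠ none).card := by
    intro c
    apply Finset.card_bij (fun x _ => x.1)
    · intro x hx
      simp only [Finset.mem_filter, Finset.mem_univ, true_and] at hx ⊢
      rw [hx]; simp
    · intro x hx y hy hxy
      simp only [Finset.mem_filter, Finset.mem_univ, true_and] at hx hy
      ext1
      · exact hxy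
      · rw [hxy, hy] at hx; exact (Option.some.inj hx).symm
    · intro t ht
      simp only [Finset.mem_filter, Finset.mem_univ, true_and, ne_eq] at ht
      obtain ⟨q, hq⟩ := Option.ne_none_iff_exists'.1 ht
      exact ⟨(t, q), by simp [hq], rfl⟩
  have h1 := card_small_finset (α := Fin T × Q) K
  rw [Fintype.card_prod, Fintype.card_fin] at h1
  refine le_trans (Fintype.card_le_of_injective
    (fun c => (⟨(Finset.univ : Finset (Fin T × Q)).filter fun x => c.1 x.1 = some x.2,
      by rw [key c.1]; exact c.2⟩ : {s : Finset (Fin T × Q) // s.card ≤ K})) ?_) h1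
  rintro ⟨c, hc⟩ ⟨d, hd⟩ h
  simp only [Subtype.mk.injEq] at h ⊢
  funext t
  have h' : ∀ q, c t = some q ↔ d t = some q := by
    intro q
    have := Finset.ext_iff.1 h (t, q)
    simpa using this
  cases hct : c t with
  | none =>
    cases hdt : d t with
    | none => rfl
    | some q => have := (h' q).2 hdt; rw [hct] at this; cases this
  | some q => exact ((h' q).1 hct).symm

end count

lemma sInf_congr_of_le {S S' : Set ℕ} (hS : S.Nonempty)
    (h : ∀ i, i ≤ sInf S → (i ∈ S' ↔ i ∈ S)) : sInf S' = sInf S := by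
  have h0 : sInf S ∈ S := Nat.sInf_mem hS
  have h1 : sInf S ∈ S' := (h _ le_rfl).2 h0
  apply le_antisymm (Nat.sInf_le h1)
  by_contra hlt
  push Not at hlt
  have h2 : sInf S' ∈ S' := Nat.sInf_mem ⟨_, h1⟩
  exact Nat.notMem_of_lt_sInf hlt ((h _ hlt.le).1 h2)

theorem rank_le {Q Γ X Y : Type} [Fintype Q] [Fintype X] [Fintype Y]
    (out : Q → Option Bool) (δ : ℕ → Q → Γ → Q × Γ × SignType) (q₀ : Q)
    (tape : X → Y → ℤ → Γ) (a : ℤ) (N T : ℕ) (ha : 0 ≤ a) (hN : 0 < N)
    (hl : ∀ x y y' z, z < a + 2 * N → tape x y z = tape x y' z)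
    (hr : ∀ x x' y z, a ≤ z → tape x y z = tape x' y z)
    (f : X → Y → Bool)
    (hf : ∀ x y, out (run out δ (q₀, 0, tape x y) T).1 = some (f x y)) (b : Bool) :
    (Matrix.of fun (x : X) (y : Y) => if f x y = b then (1 : ℚ) else 0).rank
      ≤ N ^ 2 * (T * Fintype.card Q + 1) ^ (2 * (T / N)) := by
  classical
  set D : ℕ → Q → Γ → Q × Γ × SignType :=
    fun t q g => if (out q).isSome then (q, g, 0) else δ t q g with hD
  set R : X → Y → ℕ → Q × ℤ × (ℤ → Γ) := fun x y => run out δ (q₀, 0, tape x y) with hR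
  have hrun : ∀ x y, IsRun D (R x y) := by
    intro x y t
    change step out (δ t) (R x y t) = _
    unfold step
    by_cases h : (out (R x y t).1).isSome
    · simp [hD, h]
    · simp [hD, h]
  have hR0 : ∀ x y, R x y 0 = (q₀, 0, tape x y) := fun x y => rfl
  set K := T / N with hK
  -- first cheap cuts
  set pI : X → Y → ℕ := fun x y => sInf {i : ℕ | ncr (R x y) (a + 1 + i) T ≤ K} with hpI
  set qI : X → Y → ℕ := fun x y => sInf {i : ℕ | ncr (R x y) (a + N + 1 + i) T ≤ K} with hqI
  have pne : ∀ x y, ({i : ℕ | ncr (R x y) (a + 1 + i) T ≤ K}).Nonempty := by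
    intro x y
    obtain ⟨i, _, hi⟩ := exists_cheap (hrun x y) (a + 1) N T hN
    exact ⟨i, hi⟩
  have qne : ∀ x y, ({i : ℕ | ncr (R x y) (a + N + 1 + i) T ≤ K}).Nonempty := by
    intro x y
    obtain ⟨i, _, hi⟩ := exists_cheap (hrun x y) (a + N + 1) N T hN
    exact ⟨i, hi⟩
  have plt : ∀ x y, pI x y < N := by
    intro x y
    obtain ⟨i, hi, hi'⟩ := exists_cheap (hrun x y) (a + 1) N T hN
    exact lt_of_le_of_lt (Nat.sInf_le hi') hi
  have qlt : ∀ x y, qI x y < N := by
    intro x y
    obtain ⟨i, hi, hi'⟩ := exists_cheap (hrun x y) (a + N + 1) N T hN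
    exact lt_of_le_of_lt (Nat.sInf_le hi') hi
  have pmem : ∀ x y, ncr (R x y) (a + 1 + pI x y) T ≤ K := fun x y => Nat.sInf_mem (pne x y)
  have qmem : ∀ x y, ncr (R x y) (a + N + 1 + qI x y) T ≤ K := fun x y => Nat.sInf_mem (qne x y)
  -- transcripts
  let F := {c : Fin T → Option Q //
      ((Finset.univ : Finset (Fin T)).filter fun t => c t ≠ none).card ≤ K}
  let τ : X → Y → Fin N × Fin N × F × F := fun x y =>
    (⟨pI x y, plt x y⟩, ⟨qI x y, qlt x y⟩,
      ⟨fun t => cr (R x y) (a + 1 + pI x y) t, by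
        have := pmem x y
        unfold ncr at this
        convert this⟩,
      ⟨fun t => cr (R x y) (a + N + 1 + qI x y) t, by
        have := qmem x y
        unfold ncr at this
        convert this⟩)
  -- hybrid
  have hyb : ∀ x y x' y', τ x y = τ x' y' → f x y = f x' y' →
      τ x y' = τ x y ∧ f x y' = f x y := by
    intro x y x' y' hτ hff
    have e1 : pI x y = pI x' y' := by
      have := congrArg (fun w => (w.1 : Fin N).1) hτ
      exact this
    have e2 : qI x y = qI x' y' := by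
      have := congrArg (fun w => (w.2.1 : Fin N).1) hτ
      exact this
    have e3 : ∀ t : ℕ, t < T → cr (R x y) (a + 1 + pI x y) t = cr (R x' y') (a + 1 + pI x y) t := by
      intro t ht
      have := congrArg (fun w => (w.2.2.1 : F).1 ⟨t, ht⟩) hτ
      simp only [τ] at this
      rw [this, e1]
    have e4 : ∀ t : ℕ, t < T →
        cr (R x y) (a + N + 1 + qI x y) t = cr (R x' y') (a + N + 1 + qI x y) t := by
      intro t ht
      have := congrArg (fun w => (w.2.2.2 : F).1 ⟨t, ht⟩) hτ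
      simp only [τ] at this
      rw [this, e2]
    set p : ℤ := a + 1 + pI x y with hp
    set q : ℤ := a + N + 1 + qI x y with hq
    have hpl := plt x y
    have hql := qlt x y
    have hpq : p ≤ q := by omega
    have I0 : Inv p q (R x y 0) (R x' y' 0) (R x y' 0) := by
      rw [hR0, hR0, hR0]
      refine ⟨Iff.rfl, Iff.rfl, ?_, ?_, fun _ => ⟨rfl, rfl⟩, fun _ => ⟨rfl, rfl⟩⟩
      · intro z hz; exact hl x y' y z (by omega)
      · intro z hz; exact hr x x' y' z (by omega)
    have I := inv_run (hrun x y) (hrun x' y') (hrun x y') hpq T I0 e3 e4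
    have hcr : ∀ z : ℤ, z ≤ q → ∀ t : ℕ, t < T → cr (R x y') z t = cr (R x y) z t := by
      intro z hz t ht
      exact cr_hybrid (hrun x y) (hrun x y') hpq (I t ht.le) (I (t + 1) ht) hz
    have hncr : ∀ z : ℤ, z ≤ q → ncr (R x y') z T = ncr (R x y) z T := by
      intro z hz
      unfold ncr
      congr 1
      ext t
      simp only [Finset.mem_filter, Finset.mem_univ, true_and]
      rw [hcr z hz t t.2]
    have hpe : pI x y' = pI x y := by
      apply sInf_congr_of_le (pne x y)
      intro i hi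
      simp only [Set.mem_ofPred_eq]
      rw [hncr]
      have : i ≤ pI x y := hi
      omega
    have hqe : qI x y' = qI x y := by
      apply sInf_congr_of_le (qne x y)
      intro i hi
      simp only [Set.mem_ofPred_eq]
      rw [hncr]
      have : i ≤ qI x y := hi
      omega
    refine ⟨?_, ?_⟩
    · simp only [τ]
      refine Prod.ext (Fin.ext hpe) (Prod.ext (Fin.ext hqe) (Prod.ext (Subtype.ext ?_)
        (Subtype.ext ?_)))
      · funext t
        simp only
        rw [hpe]
        exact hcr _ (by omega) t t.2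
      · funext t
        simp only
        rw [hqe]
        exact hcr _ (by omega) t t.2
    · have IT := I T le_rfl
      have h1 : out (R x y T).1 = some (f x y) := hf x y
      have h2 : out (R x' y' T).1 = some (f x' y') := hf x' y'
      have h3 : out (R x y' T).1 = some (f x y') := hf x y'
      rcases lt_or_ge (R x y T).2.1 q with h | h
      · rw [(IT.cA h).2, h1] at h3
        exact (Option.some.inj h3).symm
      · rw [(IT.cB (by omega)).2, h2] at h3
        rw [hff]
        exact (Option.some.inj h3).symm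
  -- factorisation
  let U : Matrix X (Fin N × Fin N × F × F) ℚ :=
    Matrix.of fun x i => if ∃ y, τ x y = i ∧ f x y = b then 1 else 0
  let V : Matrix (Fin N × Fin N × F × F) Y ℚ :=
    Matrix.of fun i y => if ∃ x, τ x y = i ∧ f x y = b then 1 else 0
  have hUV : (Matrix.of fun (x : X) (y : Y) => if f x y = b then (1 : ℚ) else 0) = U * V := by
    ext x y
    rw [Matrix.mul_apply]
    simp only [Matrix.of_apply, U, V]
    have hkey : ∀ i, ((∃ y', τ x y' = i ∧ f x y' = b) ∧ (∃ x', τ x' y = i ∧ f x' y = b)) ↔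
        (τ x y = i ∧ f x y = b) := by
      intro i
      constructor
      · rintro ⟨⟨y', h1, h2⟩, ⟨x', h3, h4⟩⟩
        obtain ⟨h5, h6⟩ := hyb x y' x' y (by rw [h1, h3]) (by rw [h2, h4])
        exact ⟨by rw [h5, h1], by rw [h6, h2]⟩
      · rintro ⟨h1, h2⟩
        exact ⟨⟨y, h1, h2⟩, ⟨x, h1, h2⟩⟩
    have : ∀ i, ((if ∃ y', τ x y' = i ∧ f x y' = b then (1 : ℚ) else 0) *
        (if ∃ x', τ x' y = i ∧ f x' y = b then (1 : ℚ) else 0)) =
        if τ x y = i then (if f x y = b then 1 else 0) else 0 := by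
      intro i
      have hk := hkey i
      by_cases h3 : (∃ y', τ x y' = i ∧ f x y' = b)
      · by_cases h4 : (∃ x', τ x' y = i ∧ f x' y = b)
        · obtain ⟨h5, h6⟩ := hk.1 ⟨h3, h4⟩
          rw [if_pos h3, if_pos h4, if_pos h5, if_pos h6, mul_one]
        · have h5 : ¬ (τ x y = i ∧ f x y = b) := fun h => h4 (hk.2 h).2
          rw [if_neg h4, mul_zero, ← ite_and, if_neg h5]
      · have h5 : ¬ (τ x y = i ∧ f x y = b) := fun h => h3 (hk.2 h).1
        rw [if_neg h3, zero_mul, ← ite_and, if_neg h5]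
    rw [Finset.sum_congr rfl (fun i _ => this i), Finset.sum_eq_single (τ x y)]
    · simp
    · intro i _ hi
      rw [if_neg (Ne.symm hi)]
    · intro h; exact absurd (Finset.mem_univ _) h
  rw [hUV]
  calc (U * V).rank ≤ U.rank := Matrix.rank_mul_le_left U V
    _ ≤ Fintype.card (Fin N × Fin N × F × F) := Matrix.rank_le_card_width U
    _ = N * (N * (Fintype.card F * Fintype.card F)) := by
        simp only [Fintype.card_prod, Fintype.card_fin]
    _ ≤ N * (N * ((T * Fintype.card Q + 1) ^ K * (T * Fintype.card Q + 1) ^ K)) := by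
        have := card_small_fun (Q := Q) T K
        gcongr
    _ = _ := by ring

end Pool.Agent.Helper65.OneTape
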