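import Pool.Agent.Helper65.OneTape.SweepDefs

/-! The randomized sweeping algorithm. -/

namespace Pool.Agent.Helper65.OneTape

/-- annotated tape symbols -/
inductive Cell
  | raw (b : Bool)
  | fill
  | bit (v m : Bool)
  | hash (p : Bool × Bool) (vis diff live : Bool)
  | dol
  deriving DecidableEq

/-- states of the sweeping algorithm -/
inductive St
  | parse (fb : Option Bool) (sd : Bool)
  | bc (b : Bool × Bool) (y f1 : Bool) (rs : Fin 3) (acc : Bool × Bool) (n1 u ux ok : Bool)
  | mv (cmp y lk : Bool) (par : Bool × Bool) (more : Bool)
  | rst (y t kept : Bool)
  | ck (y : Bool) (st : Fin 3) (car : Option Bool) (mis df : Bool)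
  deriving DecidableEq

instance : Finite Cell := by
  let F : Cell → Fin 5 × (Bool × Bool) × Bool × Bool × Bool := fun c => match c with
    | .raw b => (0, (b, b), b, b, b)
    | .fill => (1, (false, false), false, false, false)
    | .bit v m => (2, (v, m), false, false, false)
    | .hash p a b c => (3, p, a, b, c)
    | .dol => (4, (false, false), false, false, false)
  refine Finite.of_injective F ?_
  intro a b h
  cases a <;> cases b <;> simp_all [F]

instance : Finite St := by
  let F : St → Fin 5 × (Bool × Bool) × (Bool × Bool) × Fin 3 × Option Bool ×
      (Bool × Bool × Bool × Bool × Bool × Bool) := fun c => match c with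
    | .parse fb sd => (0, (false, false), (false, false), 0, fb, (sd, false, false, false, false, false))
    | .bc b y f1 rs acc n1 u ux ok => (1, b, acc, rs, none, (y, f1, n1, u, ux, ok))
    | .mv cmp y lk par more => (2, par, (false, false), 0, none, (cmp, y, lk, more, false, false))
    | .rst y t kept => (3, (false, false), (false, false), 0, none, (y, t, kept, false, false, false))
    | .ck y st car mis df => (4, (false, false), (false, false), st, car, (y, mis, df, false, false, false))
  refine Finite.of_injective F ?_
  intro a b h
  cases a <;> cases b <;> simp_all [F]

/-- componentwise sum of pairs of bits -/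
def bx (a b : Bool × Bool) : Bool × Bool := (xor a.1 b.1, xor a.2 b.2)

/-- product of a pair of bits with a bit -/
def bm (a : Bool × Bool) (v : Bool) : Bool × Bool := (a.1 && v, a.2 && v)

/-- transducer of the parsing sweep -/
def fparse (fb : Option Bool) (sd : Bool) (c : Cell) : St × Cell :=
  match c with
  | .raw b =>
    match fb with
    | none => (.parse (some b) sd, .fill)
    | some false => (.parse none sd, .bit b false)
    | some true => if b then (.parse none true, if sd then .fill else .dol)
        else (.parse none sd, .hash (false, false) false false true)
  | c => (.parse fb sd, c)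

/-- transducer of the broadcasting sweep -/
def fbc (b : Bool × Bool) (y f1 : Bool) (rs : Fin 3) (acc : Bool × Bool) (n1 u ux ok : Bool)
    (c : Cell) : St × Cell :=
  match c with
  | .bit v m =>
    if m then (.bc b y f1 rs acc n1 u ux ok, .bit v m)
    else if rs = 0 then (.bc b y f1 1 (bm b v) n1 u ux ok, .bit v true)
    else (.bc b y f1 2 acc n1 u ux ok, .bit v false)
  | .hash p vis diff live =>
    (.bc b y f1 0 (false, false) (n1 || decide (rs = 1)) (u || decide (rs = 2)) ux
      (ok && (if rs = 0 then (!n1 && !f1) else if rs = 1 then !n1 else n1)),
      .hash (bx p acc) vis diff live)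
  | .dol => (.bc b true f1 0 (false, false) false false u (ok && n1 && !y), .dol)
  | c => (.bc b y f1 rs acc n1 u ux ok, c)

/-- transducer of the moving sweep -/
def fmv (cmp y lk : Bool) (par : Bool × Bool) (more : Bool) (c : Cell) : St × Cell :=
  match c with
  | .bit v m => (.mv cmp y lk par more, .bit v (m || lk))
  | .hash p vis diff live =>
    if lk then
      if vis then (.mv cmp y lk par more, .hash p vis diff live)
      else (.mv cmp y false (if y then par else p) more,
        .hash p true (diff || (cmp && y && decide (p ≠ par))) live)
    else (.mv cmp y lk par (more || (y && !vis)), .hash p vis diff live)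
  | .dol => (.mv cmp true true par false, .dol)
  | c => (.mv cmp y lk par more, c)

/-- transducer of the resetting sweep -/
def frst (y t kept : Bool) (c : Cell) : St × Cell :=
  match c with
  | .bit v _ => (.rst y t kept, .bit v false)
  | .hash _ _ diff live =>
    (.rst y (if !y && live then !t else t) (kept || (!y && live && t)),
      .hash (false, false) false diff (if y then live else live && t))
  | .dol => (.rst true t kept, .dol)
  | c => (.rst y t kept, c)

/-- transducer of the checking sweep -/
def fck (y : Bool) (st : Fin 3) (car : Option Bool) (mis df : Bool) (c : Cell) : St × Cell :=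
  match c with
  | .bit v m =>
    if st = 0 && !m then
      (if y then .ck y 1 car (decide (car ≠ some v)) df else .ck y 2 (some v) mis df, .bit v true)
    else (.ck y st car mis df, .bit v m)
  | .hash p vis diff live =>
    (if vis then .ck y st car mis df
      else if y then (if st = 2 then .ck y st car mis df else .ck y 2 car mis diff)
      else (if st = 0 then .ck y 2 none mis df else .ck y st car mis df),
      .hash p vis diff live)
  | .dol => (.ck true 0 car false false, .dol)
  | c => (.ck y st car mis df, c)

/-- the transducer of the algorithm -/
def ft (s : St) (c : Cell) : St × Cell :=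
  match s with
  | .parse fb sd => fparse fb sd c
  | .bc b y f1 rs acc n1 u ux ok => fbc b y f1 rs acc n1 u ux ok c
  | .mv cmp y lk par more => fmv cmp y lk par more c
  | .rst y t kept => frst y t kept c
  | .ck y st car mis df => fck y st car mis df c

/-- start states of the phases -/
abbrev sbc (b : Bool × Bool) (f1 : Bool) : St := .bc b false f1 0 (false, false) false false false true
abbrev smv (cmp : Bool) : St := .mv cmp false true (false, false) false
abbrev srst : St := .rst false false false
abbrev sck : St := .ck false 0 none false false

/-- end of a sweep -/
def fe (s : St) (κ : Bool × Bool) : St ⊕ Option Bool :=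
  match s with
  | .parse _ _ => .inl (sbc κ true)
  | .bc _ y _ _ _ n1 u ux ok =>
    if ok && y && n1 && (u == ux) then (if u then .inl (sbc κ false) else .inl (smv true))
    else .inr (some false)
  | .mv cmp _ _ _ more =>
    if more then (if cmp then .inl (smv true) else .inl sck)
    else (if cmp then .inl srst else .inr (some false))
  | .rst _ _ kept => if kept then .inl (sbc κ false) else .inl sck
  | .ck _ _ car mis df =>
    if df then .inl (smv false)
    else if car = none then .inr (some true)
    else if mis then .inr none
    else .inl sck

end Pool.Agent.Helper65.OneTape
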