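import Pool.Agent.Helper65.OneTape.PhaseDefs

/-! Analysis of the broadcasting phase. -/

namespace Pool.Agent.Helper65.OneTape

theorem bX_snoc (bs : List (Bool × Bool)) (b : Bool × Bool) (X : List (List Bool × Bool)) :
    (bX bs X).map (bcRow b) = bX (bs ++ [b]) X := by
  simp [bX, bcRow, dot_snoc]

theorem bY_snoc (bs : List (Bool × Bool)) (b : Bool × Bool) (Y : List (List Bool × Bool)) :
    (bY bs Y).map (bcRow b) = bY (bs ++ [b]) Y := by
  simp [bY, bcRow, dot_snoc]

/-- one broadcasting sweep -/
theorem bc_one (b : Bool × Bool) (f1 : Bool) (bs : List (Bool × Bool))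
    (X Y : List (List Bool × Bool)) (trX trY : List Cell)
    (hX' : IsBits trX) (hY' : IsBits trY) :
    ∃ rs acc trX' trY', IsBits trX' ∧ IsBits trY' ∧
      scan ft (sbc b f1) (tp (bX bs X) (bY bs Y) trX trY) =
        (.bc b true f1 rs acc
          (bcFold f1 bs.length (Y.map fun r => r.1.length)
            (false, false, (bcFold f1 bs.length (X.map fun r => r.1.length)
              (false, false, true)).2.2 &&
              (bcFold f1 bs.length (X.map fun r => r.1.length) (false, false, true)).1)).1
          (bcFold f1 bs.length (Y.map fun r => r.1.length)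
            (false, false, (bcFold f1 bs.length (X.map fun r => r.1.length)
              (false, false, true)).2.2 &&
              (bcFold f1 bs.length (X.map fun r => r.1.length) (false, false, true)).1)).2.1
          (bcFold f1 bs.length (X.map fun r => r.1.length) (false, false, true)).2.1
          (bcFold f1 bs.length (Y.map fun r => r.1.length)
            (false, false, (bcFold f1 bs.length (X.map fun r => r.1.length)
              (false, false, true)).2.2 &&
              (bcFold f1 bs.length (X.map fun r => r.1.length) (false, false, true)).1)).2.2,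
        tp (bX (bs ++ [b]) X) (bY (bs ++ [b]) Y) trX' trY') := by
  have h1 : ∀ R ∈ bX bs X, R.k = bs.length := by
    intro R hR
    simp only [bX, List.mem_map] at hR
    obtain ⟨r, -, rfl⟩ := hR
    rfl
  have h2 : ∀ R ∈ bY bs Y, R.k = bs.length := by
    intro R hR
    simp only [bY, List.mem_map] at hR
    obtain ⟨r, -, rfl⟩ := hR
    rfl
  have e1 : (bX bs X).map (fun R => R.xs.length) = X.map fun r => r.1.length := by
    simp [bX]
  have e2 : (bY bs Y).map (fun R => R.xs.length) = Y.map fun r => r.1.length := by
    simp [bY]
  obtain ⟨rs1, acc1, trX', hb1, hs1⟩ := scan_bc_tr b false f1 0 (false, false)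
    (bcFold f1 bs.length (X.map fun r => r.1.length) (false, false, true)).1
    (bcFold f1 bs.length (X.map fun r => r.1.length) (false, false, true)).2.1 false
    (bcFold f1 bs.length (X.map fun r => r.1.length) (false, false, true)).2.2 trX hX'
  obtain ⟨rs2, acc2, trY', hb2, hs2⟩ := scan_bc_tr b true f1 0 (false, false)
    (bcFold f1 bs.length (Y.map fun r => r.1.length)
      (false, false, (bcFold f1 bs.length (X.map fun r => r.1.length)
        (false, false, true)).2.2 &&
        (bcFold f1 bs.length (X.map fun r => r.1.length) (false, false, true)).1)).1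
    (bcFold f1 bs.length (Y.map fun r => r.1.length)
      (false, false, (bcFold f1 bs.length (X.map fun r => r.1.length)
        (false, false, true)).2.2 &&
        (bcFold f1 bs.length (X.map fun r => r.1.length) (false, false, true)).1)).2.1
    (bcFold f1 bs.length (X.map fun r => r.1.length) (false, false, true)).2.1
    (bcFold f1 bs.length (Y.map fun r => r.1.length)
      (false, false, (bcFold f1 bs.length (X.map fun r => r.1.length)
        (false, false, true)).2.2 &&
        (bcFold f1 bs.length (X.map fun r => r.1.length) (false, false, true)).1)).2.2 trY hY'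
  refine ⟨rs2, acc2, trX', trY', hb1, hb2, ?_⟩
  simp only [tp]
  rw [scan_append, scan_append, scan_bc_reg b false f1 false false false true bs.length _ h1, e1]
  simp only [hs1]
  simp only [scan, ft, fbc]
  rw [scan_append, scan_bc_reg b true f1 false false _ _ bs.length _ h2, e2]
  simp only [Bool.not_false, Bool.and_true]
  simp only [hs2, bX_snoc, bY_snoc]

theorem bcFold_append (f1 : Bool) (k : ℕ) (l m : List ℕ) (s : Bool × Bool × Bool) :
    bcFold f1 k (l ++ m) s = bcFold f1 k m (bcFold f1 k l s) := by
  induction l generalizing s with
  | nil => rfl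
  | cons a l ih => simp only [List.cons_append, bcFold, ih]

theorem bcFold_ok_false (f1 : Bool) (k : ℕ) (l : List ℕ) (n u : Bool) :
    (bcFold f1 k l (n, u, false)).2.2 = false := by
  induction l generalizing n u with
  | nil => rfl
  | cons a l ih => simp only [bcFold, Bool.false_and, ih]

theorem bcFold_prefix (k : ℕ) (l : List ℕ) (hl : ∀ x ∈ l, x ≤ k) (o : Bool) :
    bcFold false k l (false, false, o) = (false, false, o) := by
  induction l with
  | nil => rfl
  | cons a l ih =>
    have ha : a ≤ k := hl a (by simp)
    simp only [bcFold, Bool.false_or, Bool.not_false, Bool.and_true, ha, if_true]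
    have h1 : decide (a = k + 1) = false := by simp; omega
    have h2 : decide (k + 1 < a) = false := by simp; omega
    rw [h1, h2]
    exact ih (fun x hx => hl x (by simp [hx]))

theorem bcFold_after (f1 : Bool) (k : ℕ) (l : List ℕ) (hl : ∀ x ∈ l, k + 1 < x) (u o : Bool) :
    bcFold f1 k l (true, u, o) = (true, u || decide (l ≠ []), o) := by
  induction l generalizing u with
  | nil => simp [bcFold]
  | cons a l ih =>
    have ha : k + 1 < a := hl a (by simp)
    have h1 : ¬ a ≤ k := by omega
    have h2 : a ≠ k + 1 := by omega
    simp only [bcFold, Bool.true_or, h1, h2, if_false, Bool.and_true, ha, decide_true,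
      Bool.or_true]
    rw [ih (fun x hx => hl x (by simp [hx]))]
    simp

/-- if after an element `k + 1` all the elements are larger than `k` and not all of them are larger
than `k + 1`, the fold rejects -/
theorem bcFold_after_bad (f1 : Bool) (k : ℕ) (l : List ℕ) (hf : f1 = true ∨ ∀ x ∈ l, k < x)
    (hl : ¬ ∀ x ∈ l, k + 1 < x) (u o : Bool) :
    (bcFold f1 k l (true, u, o)).2.2 = false := by
  induction l generalizing u o with
  | nil => simp at hl
  | cons a l ih =>
    have hf' : f1 = true ∨ ∀ x ∈ l, k < x := by
      rcases hf with h | h
      · exact Or.inl h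
      · exact Or.inr fun x hx => h x (by simp [hx])
    by_cases ha : k + 1 < a
    · have hl' : ¬ ∀ x ∈ l, k + 1 < x := by
        intro h
        apply hl
        intro x hx
        rcases List.mem_cons.1 hx with h1 | h1
        · rw [h1]; exact ha
        · exact h x h1
      simp only [bcFold, Bool.true_or]
      exact ih hf' hl' _ _
    · by_cases ha' : a ≤ k
      · simp only [bcFold, Bool.true_or, ha', if_true, Bool.not_true, Bool.false_and,
          Bool.and_false, bcFold_ok_false]
      · have h2 : a = k + 1 := by omega
        simp only [bcFold, Bool.true_or, ha', if_false, h2, if_true, Bool.not_true,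
          Bool.and_false]
        simp [bcFold_ok_false]

/-- the good case of the fold -/
theorem bcFold_good (f1 : Bool) (k : ℕ) (t : List ℕ) (hf : f1 = false ∨ k = 0)
    (ht : ∀ x ∈ t, k + 1 < x) (o : Bool) :
    bcFold f1 k (List.range' 1 k ++ (k + 1) :: t) (false, false, o) =
      (true, decide (t ≠ []), o) := by
  rw [bcFold_append]
  have h0 : bcFold f1 k (List.range' 1 k) (false, false, o) = (false, false, o) := by
    rcases hf with h | h
    · subst h
      apply bcFold_prefix
      intro x hx
      rw [List.mem_range'_1] at hx
      omega
    · subst h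
      rfl
  rw [h0]
  have h1 : ¬ (k + 1 ≤ k) := by omega
  simp only [bcFold, h1, if_false, if_true, Bool.not_false, Bool.and_true, Bool.false_or,
    decide_true, lt_irrefl, decide_false]
  rw [bcFold_after _ _ _ ht]
  simp

/-- the bad case of the fold -/
theorem bcFold_bad (f1 : Bool) (k : ℕ) (t : List ℕ)
    (hf : (f1 = true ∧ k = 0) ∨ (f1 = false ∧ ∀ x ∈ t, k < x))
    (ht : ¬ ∃ t', t = (k + 1) :: t' ∧ ∀ x ∈ t', k + 1 < x) (o : Bool) :
    (bcFold f1 k (List.range' 1 k ++ t) (false, false, o)).2.2 = false ∨
    (bcFold f1 k (List.range' 1 k ++ t) (false, false, o)).1 = false := by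
  rw [bcFold_append]
  have h0 : bcFold f1 k (List.range' 1 k) (false, false, o) = (false, false, o) := by
    rcases hf with h | h
    · rw [h.2]; rfl
    · rw [h.1]
      apply bcFold_prefix
      intro x hx
      rw [List.mem_range'_1] at hx
      omega
  rw [h0]
  cases t with
  | nil => right; rfl
  | cons a t =>
    left
    by_cases ha : a ≤ k
    · rcases hf with h | h
      · simp only [bcFold, ha, if_true, h.1, Bool.not_true, Bool.and_false, bcFold_ok_false]
      · have := h.2 a (by simp)
        omega
    · by_cases ha' : a = k + 1
      · subst ha'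
        have ht' : ¬ ∀ x ∈ t, k + 1 < x := by
          intro h
          exact ht ⟨t, rfl, h⟩
        simp only [bcFold, decide_true, Bool.or_true]
        apply bcFold_after_bad _ _ _ _ ht'
        rcases hf with h | h
        · exact Or.inl h.1
        · exact Or.inr fun x hx => h.2 x (by simp [hx])
      · simp only [bcFold, ha, if_false, ha', Bool.and_false, bcFold_ok_false]

theorem bc_run (κ : ℕ → Bool × Bool) (b : Bool × Bool) (f1 : Bool) (bs : List (Bool × Bool))
    (X Y : List (List Bool × Bool)) (tX tY : List ℕ) (trX trY : List Cell)
    (hX' : IsBits trX) (hY' : IsBits trY)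
    (hX : X.map (fun r => r.1.length) = List.range' 1 bs.length ++ tX)
    (hY : Y.map (fun r => r.1.length) = List.range' 1 bs.length ++ tY)
    (hf : (f1 = true ∧ bs = []) ∨
      (f1 = false ∧ (∀ l ∈ tX, bs.length < l) ∧ ∀ l ∈ tY, bs.length < l)) :
    (∃ r', 1 ≤ r' ∧ tX = List.range' (bs.length + 1) r' ∧ tY = List.range' (bs.length + 1) r' ∧
      ∃ trX' trY', IsBits trX' ∧ IsBits trY' ∧
        sweeps ft fe κ (sbc b f1) (tp (bX bs X) (bY bs Y) trX trY) r' =
          Sum.inl (smv true, tp (bX (bs ++ b :: (List.range (r' - 1)).map κ) X)
            (bY (bs ++ b :: (List.range (r' - 1)).map κ) Y) trX' trY')) ∨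
    ((¬ ∃ r', 1 ≤ r' ∧ tX = List.range' (bs.length + 1) r' ∧ tY = List.range' (bs.length + 1) r') ∧
      ∃ m tX', tX = List.range' (bs.length + 1) m ++ tX' ∧
        sweeps ft fe κ (sbc b f1) (tp (bX bs X) (bY bs Y) trX trY) (m + 1) =
          Sum.inr (some false)) := by
  induction tX generalizing κ b f1 bs tY trX trY with
  | nil =>
    right
    refine ⟨?_, 0, [], by simp, ?_⟩
    · rintro ⟨r', h1, h2, -⟩
      have := congrArg List.length h2
      simp at this
      omega
    · obtain ⟨rs, acc, trX', trY', -, -, hs⟩ := bc_one b f1 bs X Y trX trY hX' hY'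
      apply sweeps_one_inr
      rw [hs, hX]
      have hfb : (f1 = true ∧ bs.length = 0) ∨ (f1 = false ∧ ∀ x ∈ ([] : List ℕ), bs.length < x) := by
        rcases hf with h | h
        · exact Or.inl ⟨h.1, by simp [h.2]⟩
        · exact Or.inr ⟨h.1, by simp⟩
      have hb := bcFold_bad f1 bs.length [] hfb (by simp) true
      have hz : ((bcFold f1 bs.length (List.range' 1 bs.length ++ []) (false, false, true)).2.2 &&
          (bcFold f1 bs.length (List.range' 1 bs.length ++ []) (false, false, true)).1) = false := by
        rcases hb with h | h
        · rw [h, Bool.false_and]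
        · rw [h, Bool.and_false]
      rw [hz]
      simp [fe, bcFold_ok_false]
  | cons a tX ih =>
    obtain ⟨rs, acc, trX', trY', hb1, hb2, hs⟩ := bc_one b f1 bs X Y trX trY hX' hY'
    by_cases hgood : (a = bs.length + 1 ∧ ∀ x ∈ tX, bs.length + 1 < x) ∧
        (∃ t2, tY = (bs.length + 1) :: t2 ∧ (∀ x ∈ t2, bs.length + 1 < x) ∧
          (decide (t2 ≠ []) = decide (tX ≠ [])))
    · obtain ⟨⟨rfl, hx⟩, t2, rfl, hy, hdec⟩ := hgood
      have hf' : f1 = false ∨ bs.length = 0 := by
        rcases hf with h | h
        · exact Or.inr (by simp [h.2])
        · exact Or.inl h.1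
      rw [hX, hY, bcFold_good _ _ _ hf' hx, Bool.true_and, bcFold_good _ _ _ hf' hy] at hs
      simp only at hs
      by_cases htX : tX = []
      · -- end of the phase
        left
        subst htX
        have ht2 : t2 = [] := by simpa using hdec
        subst ht2
        refine ⟨1, le_rfl, by simp, by simp, trX', trY', hb1, hb2, ?_⟩
        rw [sweeps_one_inl (s' := smv true), hs]
        · simp
        · rw [hs]
          simp [fe]
      · have ht2 : t2 ≠ [] := by simpa [htX] using hdec
        have hone : sweeps ft fe κ (sbc b f1) (tp (bX bs X) (bY bs Y) trX trY) 1 =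
            Sum.inl (sbc (κ 0) false, tp (bX (bs ++ [b]) X) (bY (bs ++ [b]) Y) trX' trY') := by
          rw [sweeps_one_inl (s' := sbc (κ 0) false), hs]
          rw [hs]
          simp [fe, htX, ht2]
        have hlen : (bs ++ [b]).length = bs.length + 1 := by simp
        have hr : ∀ t : List ℕ, List.range' 1 bs.length ++ (bs.length + 1) :: t =
            List.range' 1 (bs ++ [b]).length ++ t := by
          intro t
          rw [hlen, List.range'_concat]
          simp [Nat.add_comm]
        have := ih (fun i => κ (1 + i)) (κ 0) false (bs ++ [b]) t2 trX' trY' hb1 hb2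
          (by rw [hX, hr]) (by rw [hY, hr])
          (Or.inr ⟨rfl, by rw [hlen]; exact hx, by rw [hlen]; exact hy⟩)
        rw [hlen] at this
        rcases this with ⟨r', h1, h2, h3, trX'', trY'', h4, h5, h6⟩ | ⟨h1, m, tX', h2, h3⟩
        · left
          refine ⟨r' + 1, by omega, ?_, ?_, trX'', trY'', h4, h5, ?_⟩
          · rw [h2, List.range'_succ]
          · rw [h3, List.range'_succ]
          · rw [Nat.add_comm r' 1, sweeps_add _ _ _ _ _ _ _ _ _ hone, h6]
            have e1 : 1 + r' - 1 = (r' - 1) + 1 := by omega
            rw [e1, List.range_succ_eq_map]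
            simp only [List.map_cons, List.map_map, List.append_assoc, List.singleton_append]
            have e2 : List.map (fun i => κ (1 + i)) (List.range (r' - 1)) =
                List.map (κ ∘ Nat.succ) (List.range (r' - 1)) := by
              apply List.map_congr_left
              intro i _
              simp [Nat.add_comm]
            rw [e2]
        · right
          refine ⟨?_, m + 1, tX', ?_, ?_⟩
          · rintro ⟨r', g1, g2, g3⟩
            obtain _ | r' := r'
            · omega
            rw [List.range'_succ] at g2 g3
            simp only [List.cons.injEq, true_and] at g2 g3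
            apply h1
            refine ⟨r', ?_, g2, g3⟩
            by_contra hr0
            have : r' = 0 := by omega
            subst this
            simp at g2
            exact htX g2
          · rw [List.range'_succ, h2]
            simp
          · rw [Nat.add_comm (m + 1) 1, sweeps_add _ _ _ _ _ _ _ _ _ hone, h3]
    · right
      refine ⟨?_, 0, a :: tX, by simp, ?_⟩
      · rintro ⟨r', g1, g2, g3⟩
        obtain _ | r' := r'
        · omega
        rw [List.range'_succ] at g2 g3
        simp only [List.cons.injEq] at g2
        apply hgood
        refine ⟨⟨g2.1, ?_⟩, List.range' (bs.length + 1 + 1) r', g3, ?_, ?_⟩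
        · intro x hx
          rw [g2.2, List.mem_range'_1] at hx
          omega
        · intro x hx
          rw [List.mem_range'_1] at hx
          omega
        · rw [g2.2]
      · apply sweeps_one_inr
        rw [hs, hX, hY]
        have hfX : (f1 = true ∧ bs.length = 0) ∨ (f1 = false ∧ ∀ x ∈ a :: tX, bs.length < x) := by
          rcases hf with h | h
          · exact Or.inl ⟨h.1, by simp [h.2]⟩
          · exact Or.inr ⟨h.1, h.2.1⟩
        have hfY : (f1 = true ∧ bs.length = 0) ∨ (f1 = false ∧ ∀ x ∈ tY, bs.length < x) := by
          rcases hf with h | h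
          · exact Or.inl ⟨h.1, by simp [h.2]⟩
          · exact Or.inr ⟨h.1, h.2.2⟩
        have hf' : f1 = false ∨ bs.length = 0 := by
          rcases hf with h | h
          · exact Or.inr (by simp [h.2])
          · exact Or.inl h.1
        by_cases hgX : a = bs.length + 1 ∧ ∀ x ∈ tX, bs.length + 1 < x
        · obtain ⟨rfl, hx⟩ := hgX
          rw [bcFold_good _ _ _ hf' hx]
          simp only [Bool.true_and]
          by_cases hgY : ∃ t2, tY = (bs.length + 1) :: t2 ∧ ∀ x ∈ t2, bs.length + 1 < x
          · obtain ⟨t2, rfl, hy⟩ := hgY
            rw [bcFold_good _ _ _ hf' hy]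
            have hne : ¬ (decide (t2 ≠ []) = decide (tX ≠ [])) := by
              intro h
              exact hgood ⟨⟨rfl, hx⟩, t2, rfl, hy, h⟩
            have hne' : (decide (t2 ≠ []) == decide (tX ≠ [])) = false := by
              rw [beq_eq_false_iff_ne]
              exact hne
            simp only [fe]
            rw [hne']
            simp
          · have hb := bcFold_bad f1 bs.length tY hfY hgY true
            simp only [fe]
            rcases hb with h | h <;> rw [h] <;> simp
        · have hb := bcFold_bad f1 bs.length (a :: tX) hfX (by
            rintro ⟨t', h1, h2⟩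
            simp only [List.cons.injEq] at h1
            exact hgX ⟨h1.1, by rw [h1.2]; exact h2⟩) true
          have hz : ((bcFold f1 bs.length (List.range' 1 bs.length ++ a :: tX)
              (false, false, true)).2.2 &&
              (bcFold f1 bs.length (List.range' 1 bs.length ++ a :: tX)
              (false, false, true)).1) = false := by
            rcases hb with h | h
            · rw [h, Bool.false_and]
            · rw [h, Bool.and_false]
          rw [hz]
          simp [fe, bcFold_ok_false]

end Pool.Agent.Helper65.OneTape
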