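import Pool.Agent.Helper65.OneTape.PhaseDefs

/-! The comparing phase: moving sweeps followed by one resetting sweep. -/

namespace Pool.Agent.Helper65.OneTape

/-- visited row of the first region -/
def cmpVX (bs : List (Bool × Bool)) (x : List Bool × Bool) : Row :=
  ⟨x.1, bs.length, dot bs x.1, true, false, x.2⟩

/-- visited row of the second region -/
def cmpVY (bs : List (Bool × Bool)) (x y : List Bool × Bool) : Row :=
  ⟨y.1, bs.length, dot bs y.1, true, y.2 || decide (dot bs y.1 ≠ dot bs x.1), true⟩

theorem cmp_mv_sweep (VX WX VY WY : List Row) (cx cy : Row) (trX trY : List Cell)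
    (hVX : ∀ R ∈ VX, R.vis = true ∧ R.xs.length ≤ R.k)
    (hVY : ∀ R ∈ VY, R.vis = true ∧ R.xs.length ≤ R.k)
    (hWX : ∀ R ∈ WX, R.vis = false) (hWY : ∀ R ∈ WY, R.vis = false)
    (hcx : cx.vis = false) (hcy : cy.vis = false) (hX' : IsBits trX) (hY' : IsBits trY) :
    ∃ trX' trY', IsBits trX' ∧ IsBits trY' ∧
      scan ft (smv true) (tp (VX ++ cx :: WX) (VY ++ cy :: WY) trX trY) =
        (.mv true true false cx.p (decide (WY ≠ [])),
          tp (VX ++ mvRow true false (false, false) cx :: WX) (VY ++ mvRow true true cx.p cy :: WY)
            trX' trY') := by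
  obtain ⟨trX', hx1, hx2⟩ := scan_mv_tr true false false cx.p false trX hX'
  obtain ⟨trY', hy1, hy2⟩ := scan_mv_tr true true false cx.p (decide (WY ≠ [])) trY hY'
  refine ⟨trX', trY', hx1, hy1, ?_⟩
  have h1 := scan_mv_reg true false (false, false) false VX WX cx hVX hcx hWX
  simp only [Bool.false_and, Bool.or_false, Bool.false_eq_true, if_false] at h1
  have h2 := scan_mv_reg true true cx.p false VY WY cy hVY hcy hWY
  simp only [Bool.true_and, Bool.false_or, if_true] at h2
  unfold tp
  rw [scan_append, scan_append, h1]
  simp only [hx2]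
  have h3 : ∀ u : List Cell, scan ft (.mv true false false cx.p false) (Cell.dol :: u) =
      ((scan ft (.mv true true true cx.p false) u).1,
        Cell.dol :: (scan ft (.mv true true true cx.p false) u).2) := by
    intro u
    rfl
  rw [h3, scan_append, h2]
  simp only [hy2]

theorem cmp_mv_phase (bs : List (Bool × Bool)) (X Y : List (List Bool × Bool)) :
    ∀ (VX VY : List Row) (trX trY : List Cell) (κ : ℕ → Bool × Bool),
    IsBits trX → IsBits trY → X.length = Y.length → X ≠ [] →
    (∀ r ∈ X, r.1.length ≤ bs.length) → (∀ r ∈ Y, r.1.length ≤ bs.length) →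
    (∀ R ∈ VX, R.vis = true ∧ R.xs.length ≤ R.k) → (∀ R ∈ VY, R.vis = true ∧ R.xs.length ≤ R.k) →
    ∃ trX' trY', IsBits trX' ∧ IsBits trY' ∧
      sweeps ft fe κ (smv true) (tp (VX ++ bX bs X) (VY ++ bY bs Y) trX trY) X.length =
        Sum.inl (srst, tp (VX ++ X.map (cmpVX bs)) (VY ++ List.zipWith (cmpVY bs) X Y)
          trX' trY') := by
  induction X generalizing Y with
  | nil => intro _ _ _ _ _ _ _ _ h; exact absurd rfl h
  | cons x X ih =>
    intro VX VY trX trY κ hX' hY' hlen _ hXb hYb hVX hVY
    cases Y with
    | nil => simp at hlen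
    | cons y Y =>
      have hxb : x.1.length ≤ bs.length := hXb x (by simp)
      have hyb : y.1.length ≤ bs.length := hYb y (by simp)
      have hWX : ∀ R ∈ bX bs X, R.vis = false := by
        intro R hR
        simp only [bX, List.mem_map] at hR
        obtain ⟨r, _, rfl⟩ := hR
        rfl
      have hWY : ∀ R ∈ bY bs Y, R.vis = false := by
        intro R hR
        simp only [bY, List.mem_map] at hR
        obtain ⟨r, _, rfl⟩ := hR
        rfl
      obtain ⟨trX1, trY1, hx1, hy1, hs⟩ := cmp_mv_sweep VX (bX bs X) VY (bY bs Y)
        ⟨x.1, bs.length, dot bs x.1, false, false, x.2⟩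
        ⟨y.1, bs.length, dot bs y.1, false, y.2, true⟩ trX trY hVX hVY hWX hWY rfl rfl hX' hY'
      have e1 : mvRow true false (false, false)
          (⟨x.1, bs.length, dot bs x.1, false, false, x.2⟩ : Row) = cmpVX bs x := by
        simp [mvRow, cmpVX, max_eq_left hxb]
      have e2 : mvRow true true (dot bs x.1)
          (⟨y.1, bs.length, dot bs y.1, false, y.2, true⟩ : Row) = cmpVY bs x y := by
        simp [mvRow, cmpVY, max_eq_left hyb]
      simp only [e1, e2] at hs
      have hbX : bX bs (x :: X) = ⟨x.1, bs.length, dot bs x.1, false, false, x.2⟩ :: bX bs X := rfl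
      have hbY : bY bs (y :: Y) = ⟨y.1, bs.length, dot bs y.1, false, y.2, true⟩ :: bY bs Y := rfl
      rw [hbX, hbY]
      by_cases hXn : X = []
      · subst hXn
        have hYn : Y = [] := by
          have : Y.length = 0 := by simpa using hlen.symm
          exact List.length_eq_zero_iff.mp this
        subst hYn
        refine ⟨trX1, trY1, hx1, hy1, ?_⟩
        have := sweeps_one_inl ft fe κ (smv true)
          (tp (VX ++ (⟨x.1, bs.length, dot bs x.1, false, false, x.2⟩ : Row) :: bX bs [])
            (VY ++ (⟨y.1, bs.length, dot bs y.1, false, y.2, true⟩ : Row) :: bY bs []) trX trY)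
          srst (by rw [hs]; rfl)
        rw [hs] at this
        exact this
      · have hYn : Y ≠ [] := by
          intro h
          subst h
          apply hXn
          have : X.length = 0 := by simpa using hlen
          exact List.length_eq_zero_iff.mp this
        have hbn : decide (bY bs Y ≠ []) = true := by
          simp [bY, hYn]
        obtain ⟨trX2, trY2, hx2, hy2, hr⟩ := ih Y (VX ++ [cmpVX bs x]) (VY ++ [cmpVY bs x y])
          trX1 trY1 (fun i => κ (1 + i)) hx1 hy1 (by simpa using hlen) hXn
          (fun r hr => hXb r (by simp [hr])) (fun r hr => hYb r (by simp [hr]))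
          (by
            intro R hR
            rcases List.mem_append.mp hR with h | h
            · exact hVX R h
            · rw [List.mem_singleton] at h
              subst h
              exact ⟨rfl, hxb⟩)
          (by
            intro R hR
            rcases List.mem_append.mp hR with h | h
            · exact hVY R h
            · rw [List.mem_singleton] at h
              subst h
              exact ⟨rfl, hyb⟩)
        refine ⟨trX2, trY2, hx2, hy2, ?_⟩
        have h1 := sweeps_one_inl ft fe κ (smv true)
          (tp (VX ++ (⟨x.1, bs.length, dot bs x.1, false, false, x.2⟩ : Row) :: bX bs X)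
            (VY ++ (⟨y.1, bs.length, dot bs y.1, false, y.2, true⟩ : Row) :: bY bs Y) trX trY)
          (smv true) (by rw [hs, hbn]; rfl)
        rw [hs] at h1
        have h2 := sweeps_add ft fe κ _ _ 1 X.length _ _ h1
        rw [List.length_cons, Nat.add_comm X.length 1, h2]
        simp only [List.append_assoc, List.singleton_append] at hr
        rw [hr]
        simp

theorem cmp_zip_fst (X : List (List Bool × Bool)) (ls : List Bool) (h : ls.length = X.length) :
    (List.zipWith (fun (x : List Bool × Bool) l => (x.1, l)) X ls).map Prod.fst =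
      X.map Prod.fst := by
  induction X generalizing ls with
  | nil => simp
  | cons x X ih =>
    cases ls with
    | nil => simp at h
    | cons l ls =>
      simp only [List.zipWith_cons_cons, List.map_cons]
      rw [ih ls (by simpa using h)]

theorem cmp_zip_filter (X : List (List Bool × Bool)) (ls : List Bool)
    (h : ls.length = X.length) :
    ((List.zipWith (fun (x : List Bool × Bool) l => (x.1, l)) X ls).filter fun r => r.2).length =
      (ls.filter id).length := by
  induction X generalizing ls with
  | nil =>
    have : ls = [] := List.length_eq_zero_iff.mp (by simpa using h)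
    subst this
    simp
  | cons x X ih =>
    cases ls with
    | nil => simp at h
    | cons l ls =>
      simp only [List.zipWith_cons_cons, List.filter_cons]
      have := ih ls (by simpa using h)
      cases l <;> simp [this]

theorem cmp_zip_bX (bs : List (Bool × Bool)) (X : List (List Bool × Bool)) (ls : List Bool) :
    List.zipWith (fun (R : Row) l => (⟨R.xs, 0, (false, false), false, R.diff, l⟩ : Row))
      (X.map (cmpVX bs)) ls =
      bX [] (List.zipWith (fun (x : List Bool × Bool) l => (x.1, l)) X ls) := by
  induction X generalizing ls with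
  | nil => simp [bX]
  | cons x X ih =>
    cases ls with
    | nil => simp [bX]
    | cons l ls =>
      simp only [List.map_cons, List.zipWith_cons_cons]
      rw [ih ls]
      rfl

theorem cmp_zip_bY (bs : List (Bool × Bool)) (X Y : List (List Bool × Bool)) :
    (List.zipWith (cmpVY bs) X Y).map rstRow =
      bY [] (List.zipWith
        (fun x y => (y.1, y.2 || decide (dot bs y.1 ≠ dot bs x.1))) X Y) := by
  induction X generalizing Y with
  | nil => simp [bY]
  | cons x X ih =>
    cases Y with
    | nil => simp [bY]
    | cons y Y =>
      simp only [List.map_cons, List.zipWith_cons_cons]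
      rw [ih Y]
      rfl

theorem cmp_liveCount (bs : List (Bool × Bool)) (X : List (List Bool × Bool)) :
    liveCount (X.map (cmpVX bs)) = (X.filter fun r => r.2).length := by
  induction X with
  | nil => rfl
  | cons x X ih =>
    unfold liveCount at ih ⊢
    simp only [List.map_cons, List.filter_cons]
    cases h : x.2 <;> simp [cmpVX, h, ← ih]

theorem cmp_run (κ : ℕ → Bool × Bool) (bs : List (Bool × Bool)) (X Y : List (List Bool × Bool))
    (trX trY : List Cell) (hX' : IsBits trX) (hY' : IsBits trY) (hlen : X.length = Y.length)
    (hne : X ≠ []) (hXb : ∀ r ∈ X, r.1.length ≤ bs.length) (hYb : ∀ r ∈ Y, r.1.length ≤ bs.length) :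
    ∃ (X' : List (List Bool × Bool)) (trX' trY' : List Cell), IsBits trX' ∧ IsBits trY' ∧
      X'.map Prod.fst = X.map Prod.fst ∧
      (X'.filter fun r => r.2).length = (X.filter fun r => r.2).length / 2 ∧
      sweeps ft fe κ (smv true) (tp (bX bs X) (bY bs Y) trX trY) (X.length + 1) =
        Sum.inl (if 0 < (X'.filter fun r => r.2).length then sbc (κ X.length) false else sck,
          tp (bX [] X') (bY [] (List.zipWith
            (fun x y => (y.1, y.2 || decide (dot bs y.1 ≠ dot bs x.1))) X Y)) trX' trY') := by
  obtain ⟨trX1, trY1, hx1, hy1, h1⟩ := cmp_mv_phase bs X Y [] [] trX trY κ hX' hY' hlen hne hXb hYb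
    (by intro R hR; simp at hR) (by intro R hR; simp at hR)
  simp only [List.nil_append] at h1
  obtain ⟨t', ls, hl1, hl2, hl3⟩ := scan_rst_X false false (X.map (cmpVX bs))
  have hl1' : ls.length = X.length := by simpa using hl1
  obtain ⟨trX2, hx2, hx3⟩ := scan_rst_tr false t' (false || decide (0 < (ls.filter id).length))
    trX1 hx1
  obtain ⟨trY2, hy2, hy3⟩ := scan_rst_tr true t' (false || decide (0 < (ls.filter id).length))
    trY1 hy1
  refine ⟨List.zipWith (fun (x : List Bool × Bool) l => (x.1, l)) X ls, trX2, trY2, hx2, hy2,
    cmp_zip_fst X ls hl1', ?_, ?_⟩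
  · rw [cmp_zip_filter X ls hl1', hl2, cmp_liveCount]
    simp
  · have hscan : scan ft srst (tp (X.map (cmpVX bs)) (List.zipWith (cmpVY bs) X Y) trX1 trY1) =
        (.rst true t' (decide (0 < (ls.filter id).length)),
          tp (bX [] (List.zipWith (fun (x : List Bool × Bool) l => (x.1, l)) X ls))
            (bY [] (List.zipWith
            (fun x y => (y.1, y.2 || decide (dot bs y.1 ≠ dot bs x.1))) X Y)) trX2 trY2) := by
      unfold tp
      rw [scan_append, scan_append, hl3]
      simp only [hx3]
      have h3 : ∀ (k : Bool) (u : List Cell), scan ft (.rst false t' k) (Cell.dol :: u) =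
          ((scan ft (.rst true t' k) u).1, Cell.dol :: (scan ft (.rst true t' k) u).2) := by
        intro k u
        rfl
      rw [h3, scan_append, scan_rst_Y]
      rw [Bool.false_or] at hy3
      simp only [Bool.false_or, hy3, cmp_zip_bX, cmp_zip_bY]
    rw [cmp_zip_filter X ls hl1']
    simp only [sweeps, h1, hscan, fe]
    by_cases hc : 0 < (ls.filter id).length
    · simp [hc]
    · simp [hc]

end Pool.Agent.Helper65.OneTape
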