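import Pool.Agent.Helper65.OneTape.Whole
import Pool.Agent.Helper31.OneTape.Small
import Pool.Agent.Helper75.OneTape.Compile

/-! The probability of the output `none`, and the running time. -/

namespace Pool.Agent.Helper65.OneTape

theorem bx_cancel_left (a b c : Bool × Bool) : bx a b = bx a c ↔ b = c := by
  rcases a with ⟨a1, a2⟩
  rcases b with ⟨b1, b2⟩
  rcases c with ⟨c1, c2⟩
  simp [bx]

theorem bool_one : ∀ v v' b b' d e : Bool, v ≠ v' →
    xor (xor (b && v) d) (xor (b && v') e) =
      xor false (xor (xor (b' && v) d) (xor (b' && v') e)) → b = b' := by decide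

theorem bool_two : ∀ v v' b d e d' e' : Bool,
    xor (xor (b && v) d) (xor (b && v') e) =
      xor false (xor (xor (b && v) d') (xor (b && v') e')) →
    xor d e = xor false (xor d' e') := by decide

theorem dot_det (B : List (Bool × Bool)) : ∀ (B' : List (Bool × Bool)) (x y : List Bool) (p : ℕ)
    (c : Bool × Bool)
    (hB : B.length = B'.length) (hxy : x.length = y.length) (hxB : x.length ≤ B.length)
    (hp : p < x.length)
    (hne : x[p]? ≠ y[p]?)
    (hBB : ∀ i, i ≠ p → B[i]? = B'[i]?)
    (h : bx (dot B x) (dot B y) = bx c (bx (dot B' x) (dot B' y))) (hc : c = (false, false)),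
    B[p]? = B'[p]? := by
  induction B with
  | nil =>
    intro B' x y p c hB hxy hxB hp
    simp at hxB
    rw [hxB] at hp
    simp at hp
  | cons b B ih =>
    intro B' x y p c hB hxy hxB hp hne hBB h hc
    obtain _ | ⟨b', B'⟩ := B'
    · simp at hB
    obtain _ | ⟨v, x⟩ := x
    · simp at hp
    obtain _ | ⟨v', y⟩ := y
    · simp at hxy
    subst hc
    simp only [dot] at h
    obtain _ | p := p
    · have hB2 : B = B' := by
        apply List.ext_getElem?
        intro i
        have := hBB (i + 1) (by omega)
        simpa using this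
      subst hB2
      simp only [List.getElem?_cons_zero, ne_eq, Option.some.injEq] at hne
      simp only [List.getElem?_cons_zero, Option.some.injEq]
      rcases b with ⟨b1, b2⟩
      rcases b' with ⟨b1', b2'⟩
      generalize dot B x = dx at h
      generalize dot B y = dy at h
      rcases dx with ⟨d1, d2⟩
      rcases dy with ⟨e1, e2⟩
      simp only [bx, bm, Prod.mk.injEq] at h ⊢
      exact ⟨bool_one _ _ _ _ _ _ hne h.1, bool_one _ _ _ _ _ _ hne h.2⟩
    · have hb : b = b' := by
        have := hBB 0 (by omega)
        simpa using this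
      subst hb
      have := ih B' x y p (false, false) (by simpa using hB) (by simpa using hxy)
        (by simpa using hxB) (by simpa using hp) (by simpa using hne)
        (by intro i hi; simpa using hBB (i + 1) (by omega))
        (by
          rcases b with ⟨b1, b2⟩
          generalize dot B x = dx at h ⊢
          generalize dot B y = dy at h ⊢
          generalize dot B' x = dx' at h ⊢
          generalize dot B' y = dy' at h ⊢
          rcases dx with ⟨d1, d2⟩
          rcases dy with ⟨e1, e2⟩
          rcases dx' with ⟨d1', d2'⟩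
          rcases dy' with ⟨e1', e2'⟩
          simp only [bx, bm, Prod.mk.injEq] at h ⊢
          exact ⟨bool_two _ _ _ _ _ _ _ h.1, bool_two _ _ _ _ _ _ _ h.2⟩) rfl
      simpa using this

theorem dot_det' (B B' : List (Bool × Bool)) (x y : List Bool) (p : ℕ)
    (hB : B.length = B'.length) (hxy : x.length = y.length) (hxB : x.length ≤ B.length)
    (hp : p < x.length) (hne : x[p]? ≠ y[p]?)
    (hBB : ∀ i, i ≠ p → B[i]? = B'[i]?)
    (h : dot B y = dot B x) (h' : dot B' y = dot B' x) : B[p]? = B'[p]? := by
  refine dot_det B B' x y p (false, false) hB hxy hxB hp hne hBB ?_ rfl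
  rw [h, h']
  generalize dot B x = a
  generalize dot B' x = b
  rcases a with ⟨a1, a2⟩
  rcases b with ⟨b1, b2⟩
  simp [bx]

/-- coins of the sweeps -/
def kap (n N : ℕ) (ω : Fin N → Bool) (k : ℕ) : Bool × Bool :=
  (coin ω ((2 * n + 2) * k + n), coin ω ((2 * n + 2) * k + (2 * n + 1)))

/-- the event that the rows `x` and `y` are not distinguished in `R` rounds -/
theorem pair_bad (n r R : ℕ) (N : ℕ) (hN : (2 * n + 2) * ((2 * r + 1) * R) ≤ N)
    (x y : List Bool) (hxy : x.length = y.length) (hx : x.length ≤ r) (hne : x ≠ y) :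
    Nat.card {ω : Fin N → Bool | ∀ j < R, dot (coins (kap n N ω) r j) y =
      dot (coins (kap n N ω) r j) x} * 2 ^ (2 * R) ≤ 2 ^ N := by
  classical
  obtain ⟨p, hp, hpne⟩ : ∃ p < x.length, x[p]? ≠ y[p]? := by
    by_contra hcon
    push Not at hcon
    apply hne
    apply List.ext_getElem?
    intro i
    by_cases hi : i < x.length
    · exact hcon i hi
    · rw [List.getElem?_eq_none (by omega), List.getElem?_eq_none (by omega)]
  have hpr : p < r := by omega
  -- the index of the coin sweeps
  let s : ℕ → ℕ := fun j => (2 * r + 1) * j + p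
  have hs : ∀ j < R, s j + 1 ≤ (2 * r + 1) * R := by
    intro j hj
    have : (2 * r + 1) * (j + 1) ≤ (2 * r + 1) * R := Nat.mul_le_mul_left _ (by omega)
    have h2 : (2 * r + 1) * (j + 1) = (2 * r + 1) * j + (2 * r + 1) := by ring
    show (2 * r + 1) * j + p + 1 ≤ _
    omega
  have hsN : ∀ j < R, (2 * n + 2) * s j + (2 * n + 1) < N := by
    intro j hj
    have h1 : (2 * n + 2) * (s j + 1) ≤ (2 * n + 2) * ((2 * r + 1) * R) :=
      Nat.mul_le_mul_left _ (hs j hj)
    have h2 : (2 * n + 2) * (s j + 1) = (2 * n + 2) * s j + (2 * n + 2) := by ring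
    omega
  have hsinj : ∀ i j, s i = s j → i = j := by
    intro i j h
    have h1 : (2 * r + 1) * i = (2 * r + 1) * j := by
      have : (2 * r + 1) * i + p = (2 * r + 1) * j + p := h
      omega
    exact Nat.eq_of_mul_eq_mul_left (by omega) h1
  let tm : ℕ × Bool → ℕ := fun q => (2 * n + 2) * s q.1 + (if q.2 then n else 2 * n + 1)
  have htm_inj : ∀ q q' : ℕ × Bool, tm q = tm q' → q = q' := by
    rintro ⟨j, b⟩ ⟨j', b'⟩ h
    have hlt : ∀ c : Bool, (if c then n else 2 * n + 1) < 2 * n + 2 := by
      intro c; cases c <;> simp; omega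
    have h1 : s j = s j' := by
      have e1 : tm (j, b) / (2 * n + 2) = s j := by
        show ((2 * n + 2) * s j + (if b then n else 2 * n + 1)) / (2 * n + 2) = s j
        rw [Nat.mul_add_div (by omega), Nat.div_eq_of_lt (hlt b), Nat.add_zero]
      have e2 : tm (j', b') / (2 * n + 2) = s j' := by
        show ((2 * n + 2) * s j' + (if b' then n else 2 * n + 1)) / (2 * n + 2) = s j'
        rw [Nat.mul_add_div (by omega), Nat.div_eq_of_lt (hlt b'), Nat.add_zero]
      rw [← e1, ← e2, h]
    have hj := hsinj _ _ h1
    subst hj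
    have h2 : (2 * n + 2) * s j + (if b then n else 2 * n + 1) =
      (2 * n + 2) * s j + (if b' then n else 2 * n + 1) := h
    have h3 : (if b then n else 2 * n + 1) = (if b' then n else 2 * n + 1) := by omega
    cases b <;> cases b' <;> simp at h3 ⊢ <;> omega
  let J : Finset (Fin N) := Finset.univ.filter fun t => ∃ j < R, ∃ b : Bool, t.1 = tm (j, b)
  have hJ : 2 * R ≤ J.card := by
    have : (Finset.univ : Finset (Fin R × Bool)).card = 2 * R := by
      rw [Finset.card_univ, Fintype.card_prod, Fintype.card_fin, Fintype.card_bool]; ring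
    rw [← this]
    have htmN : ∀ q : Fin R × Bool, tm (q.1.1, q.2) < N := by
      rintro ⟨⟨j, hj⟩, b⟩
      have := hsN j hj
      show (2 * n + 2) * s j + (if b then n else 2 * n + 1) < N
      cases b <;> simp <;> omega
    refine Finset.card_le_card_of_injOn (fun q => ⟨tm (q.1.1, q.2), htmN q⟩) ?_ ?_
    · intro q _
      simp only [J, Finset.coe_filter, Finset.mem_univ, true_and, Set.mem_ofPred_eq]
      exact ⟨q.1.1, q.1.2, q.2, rfl⟩
    · intro q _ q' _ h
      have h1 : tm (q.1.1, q.2) = tm (q'.1.1, q'.2) := congrArg Fin.val h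
      have h2 := htm_inj _ _ h1
      rw [Prod.mk.injEq] at h2
      exact Prod.ext (Fin.ext h2.1) h2.2
  have hcount := Pool.Agent.Helper31.OneTape.card_le_of_inj_off J
    {ω : Fin N → Bool | ∀ j < R, dot (coins (kap n N ω) r j) y =
      dot (coins (kap n N ω) r j) x} ?_
  · rw [Fintype.card_fin] at hcount
    refine le_trans (Nat.mul_le_mul_left _ (Nat.pow_le_pow_right (by norm_num) hJ)) hcount
  · intro ω hω ω' hω' hagree
    -- coins at sweeps other than `s j`
    have hcoin : ∀ t, (∀ j < R, ∀ b : Bool, t ≠ tm (j, b)) → coin ω t = coin ω' t := by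
      intro t ht
      unfold coin
      split_ifs with htN
      · apply hagree
        simp only [J, Finset.mem_filter, Finset.mem_univ, true_and, not_exists, not_and]
        intro j hj b
        exact ht j hj b
      · rfl
    have hkap : ∀ k, (∀ j < R, k ≠ s j) → kap n N ω k = kap n N ω' k := by
      intro k hk
      have hh : ∀ c : ℕ, c < 2 * n + 2 → coin ω ((2 * n + 2) * k + c) =
          coin ω' ((2 * n + 2) * k + c) := by
        intro c hc
        apply hcoin
        intro j hj b heq
        apply hk j hj
        have hlt : (if b then n else 2 * n + 1) < 2 * n + 2 := by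
          cases b <;> simp; omega
        have e1 : ((2 * n + 2) * k + c) / (2 * n + 2) = k := by
          rw [Nat.mul_add_div (by omega), Nat.div_eq_of_lt hc, Nat.add_zero]
        have e2 : tm (j, b) / (2 * n + 2) = s j := by
          show ((2 * n + 2) * s j + (if b then n else 2 * n + 1)) / (2 * n + 2) = s j
          rw [Nat.mul_add_div (by omega), Nat.div_eq_of_lt hlt, Nat.add_zero]
        rw [← e1, ← e2, heq]
      unfold kap
      rw [hh n (by omega), hh (2 * n + 1) (by omega)]
    have hkaps : ∀ j < R, kap n N ω (s j) = kap n N ω' (s j) := by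
      intro j hj
      have hdet := dot_det' (coins (kap n N ω) r j) (coins (kap n N ω') r j) x y p
        (by simp [coins]) hxy (by simp [coins]; omega) hp hpne ?_ (hω j hj) (hω' j hj)
      · simpa [coins, hpr] using hdet
      · intro i hi
        by_cases hir : i < r
        · simp only [coins, List.getElem?_map, List.getElem?_range hir, Option.map_some,
            Option.some.injEq]
          apply hkap
          intro j' hj' heq
          have h1 : (2 * r + 1) * j + i = (2 * r + 1) * j' + p := heq
          apply hi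
          have e1 : ((2 * r + 1) * j + i) % (2 * r + 1) = i := by
            rw [Nat.mul_add_mod, Nat.mod_eq_of_lt (by omega)]
          have e2 : ((2 * r + 1) * j' + p) % (2 * r + 1) = p := by
            rw [Nat.mul_add_mod, Nat.mod_eq_of_lt (by omega)]
          rw [← e1, ← e2, h1]
        · rw [List.getElem?_eq_none (by simp [coins]; omega),
            List.getElem?_eq_none (by simp [coins]; omega)]
    funext t
    by_cases ht : t ∈ J
    · simp only [J, Finset.mem_filter, Finset.mem_univ, true_and] at ht
      obtain ⟨j, hj, b, hb⟩ := ht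
      have h1 := hkaps j hj
      unfold kap at h1
      rw [Prod.mk.injEq] at h1
      have hc : coin ω t.1 = coin ω' t.1 := by
        rw [hb]
        show coin ω ((2 * n + 2) * s j + (if b then n else 2 * n + 1)) =
          coin ω' ((2 * n + 2) * s j + (if b then n else 2 * n + 1))
        cases b
        · exact h1.2
        · exact h1.1
      unfold coin at hc
      simpa [t.2] using hc
    · exact hagree t ht

/-- the event that some pair of different rows is not distinguished -/
theorem bad_bound (n r N : ℕ) (hr : 1 ≤ r)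
    (hN : (2 * n + 2) * ((2 * r + 1) * (Nat.log 2 r + 1)) ≤ N)
    (X Y : List (List Bool)) (hX : X.map List.length = List.range' 1 r)
    (hY : Y.map List.length = List.range' 1 r) :
    4 * Nat.card {ω : Fin N → Bool | ∃ p ∈ X.zip Y, p.1 ≠ p.2 ∧ ∀ j < Nat.log 2 r + 1,
      dot (coins (kap n N ω) r j) p.2 = dot (coins (kap n N ω) r j) p.1} ≤ 2 ^ N := by
  classical
  set R := Nat.log 2 r + 1 with hR
  have hXr : X.length = r := by simpa using congrArg List.length hX
  have hYr : Y.length = r := by simpa using congrArg List.length hY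
  have hXi : ∀ i (hi : i < r), (X[i]'(by omega)).length = i + 1 := by
    intro i hi
    have := congrArg (fun l => l[i]?) hX
    simp only [List.getElem?_map] at this
    rw [List.getElem?_eq_getElem (by omega), List.getElem?_range' (by omega)] at this
    simp at this
    omega
  have hYi : ∀ i (hi : i < r), (Y[i]'(by omega)).length = i + 1 := by
    intro i hi
    have := congrArg (fun l => l[i]?) hY
    simp only [List.getElem?_map] at this
    rw [List.getElem?_eq_getElem (by omega), List.getElem?_range' (by omega)] at this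
    simp at this
    omega
  let A : Fin r → Finset (Fin N → Bool) := fun i => Finset.univ.filter fun ω =>
    X[i.1]'(by omega) ≠ Y[i.1]'(by omega) ∧ ∀ j < R,
      dot (coins (kap n N ω) r j) (Y[i.1]'(by omega)) =
        dot (coins (kap n N ω) r j) (X[i.1]'(by omega))
  have hA : ∀ i, (A i).card * 2 ^ (2 * R) ≤ 2 ^ N := by
    intro i
    by_cases hne : X[i.1]'(by omega) ≠ Y[i.1]'(by omega)
    · have h1 := pair_bad n r R N hN (X[i.1]'(by omega)) (Y[i.1]'(by omega))
        (by rw [hXi _ i.2, hYi _ i.2]) (by rw [hXi _ i.2]; omega) hne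
      have h2 : Nat.card {ω : Fin N → Bool | ∀ j < R,
          dot (coins (kap n N ω) r j) (Y[i.1]'(by omega)) =
            dot (coins (kap n N ω) r j) (X[i.1]'(by omega))} = (A i).card := by
        rw [Nat.card_eq_card_toFinset]
        congr 1
        ext ω
        simp [A, hne]
      rw [← h2]
      exact h1
    · have : A i = ∅ := by
        apply Finset.filter_eq_empty_iff.2
        intro ω _ h
        exact hne h.1
      rw [this]; simp
  have hsub : Nat.card {ω : Fin N → Bool | ∃ p ∈ X.zip Y, p.1 ≠ p.2 ∧ ∀ j < R,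
      dot (coins (kap n N ω) r j) p.2 = dot (coins (kap n N ω) r j) p.1} ≤
      ∑ i, (A i).card := by
    refine le_trans ?_ Finset.card_biUnion_le
    rw [Nat.card_eq_card_toFinset]
    apply Finset.card_le_card
    intro ω hω
    simp only [Set.mem_toFinset, Set.mem_ofPred_eq] at hω
    obtain ⟨p, hp, hne, hj⟩ := hω
    obtain ⟨i, hi, rfl⟩ := List.mem_iff_getElem.1 hp
    simp only [List.length_zip] at hi
    rw [Finset.mem_biUnion]
    refine ⟨⟨i, by omega⟩, Finset.mem_univ _, ?_⟩
    simp only [A, Finset.mem_filter, Finset.mem_univ, true_and]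
    simp only [List.getElem_zip] at hne hj
    exact ⟨hne, hj⟩
  set B := Nat.card {ω : Fin N → Bool | ∃ p ∈ X.zip Y, p.1 ≠ p.2 ∧ ∀ j < R,
      dot (coins (kap n N ω) r j) p.2 = dot (coins (kap n N ω) r j) p.1} with hB
  have h1 : B * 2 ^ (2 * R) ≤ r * 2 ^ N := by
    calc B * 2 ^ (2 * R) ≤ (∑ i, (A i).card) * 2 ^ (2 * R) := Nat.mul_le_mul_right _ hsub
      _ = ∑ i, (A i).card * 2 ^ (2 * R) := by rw [Finset.sum_mul]
      _ ≤ ∑ _i : Fin r, 2 ^ N := Finset.sum_le_sum fun i _ => hA i
      _ = r * 2 ^ N := by simp
  have h2 : r < 2 ^ R := Nat.lt_pow_succ_log_self (by norm_num) r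
  have h3 : 4 * r ≤ 2 ^ (2 * R) := by
    rw [show 2 * R = R + R by ring, pow_add]
    have : (r + 1) * (r + 1) ≤ 2 ^ R * 2 ^ R := Nat.mul_le_mul h2 h2
    nlinarith [sq_nonneg ((r : ℤ) - 1)]
  have h4 : 4 * B * 2 ^ (2 * R) ≤ 2 ^ N * 2 ^ (2 * R) := by
    calc 4 * B * 2 ^ (2 * R) = 4 * (B * 2 ^ (2 * R)) := by ring
      _ ≤ 4 * (r * 2 ^ N) := Nat.mul_le_mul_left _ h1
      _ = 4 * r * 2 ^ N := by ring
      _ ≤ 2 ^ (2 * R) * 2 ^ N := Nat.mul_le_mul_right _ h3
      _ = 2 ^ N * 2 ^ (2 * R) := by ring
  exact Nat.le_of_mul_le_mul_right h4 (by positivity)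

end Pool.Agent.Helper65.OneTape
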