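import Pool.Agent.Helper65.OneTape.Defs

/-! The two kinds of one-tape machines compared in the result on `MP_34c247_lc`. -/

namespace Pool.Agent.Helper65.OneTape

open Classical in
/-- The language `L` is decided with zero error by a randomized one-tape Turing machine in time
`t`. The machine has a finite set `Q` of states and a finite alphabet `Γ`; the cell `z` initially
contains `inp (cell w z)` where `w` is the input, with `inp` injective. In each step it tosses one
coin, on which the transition function `δ` may depend. After `T |w| ≤ t |w|` steps it has output
either `none` (it gives up), or the right answer `some (w ∈ L)`; for each `w` at most a quarter of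
the sequences `ω` of `T |w|` coins lead to `none`. -/
def ZeroErrorTime (L : Set (List Bool)) (t : ℕ → ℝ) : Prop :=
  ∃ (Q Γ : Type) (_ : Finite Q) (_ : Finite Γ) (inp : Option Bool → Γ) (q₀ : Q)
    (δ : Bool → Q → Γ → Q × Γ × SignType) (out : Q → Option (Option Bool)) (T : ℕ → ℕ),
    Function.Injective inp ∧ (∀ n : ℕ, (T n : ℝ) ≤ t n) ∧
    ∀ w : List Bool,
      (∀ ω : Fin (T w.length) → Bool,
        out (run out (fun i => δ (coin ω i)) (q₀, 0, fun z => inp (cell w z)) (T w.length)).1 =
          some none ∨
        out (run out (fun i => δ (coin ω i)) (q₀, 0, fun z => inp (cell w z)) (T w.length)).1 =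
          some (some (decide (w ∈ L)))) ∧
      4 * Nat.card {ω : Fin (T w.length) → Bool |
        out (run out (fun i => δ (coin ω i)) (q₀, 0, fun z => inp (cell w z)) (T w.length)).1 =
          some none} ≤ 2 ^ T w.length

open Classical in
/-- The language `L` is decided in time `T` by a family of deterministic one-tape machines, one for
each input length `n`. The machine for the length `n` has at most `s n` states, its alphabet `Γ n`
is arbitrary (possibly infinite), its transition function `δ n i` may depend on the time `i` in an
arbitrary way, and its cell `z` initially contains `tape n z (cell w z)`, so that arbitrary advice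
for the length `n` can be written on the whole tape, together with the input `w`. -/
def NonuniformTime (L : Set (List Bool)) (s T : ℕ → ℕ) : Prop :=
  ∃ (Q Γ : ℕ → Type) (_ : ∀ n, Fintype (Q n)) (tape : ∀ n, ℤ → Option Bool → Γ n)
    (q₀ : ∀ n, Q n) (δ : ∀ n, ℕ → Q n → Γ n → Q n × Γ n × SignType)
    (out : ∀ n, Q n → Option Bool),
    (∀ n, Fintype.card (Q n) ≤ s n) ∧
    ∀ w : List Bool, out w.length (run (out w.length) (δ w.length)
      (q₀ w.length, 0, fun z => tape w.length z (cell w z)) (T w.length)).1 =
        some (decide (w ∈ L))

end Pool.Agent.Helper65.OneTape
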