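import Pool.Agent.Helper65.OneTape.Scan
import Pool.Agent.Helper65.OneTape.Lang

/-! Encoded tapes used in the analysis of the phases. -/

namespace Pool.Agent.Helper65.OneTape

/-- tape with two regions, each followed by bits of an unterminated row -/
def tp (RX RY : List Row) (trX trY : List Cell) : List Cell :=
  encReg RX ++ trX ++ Cell.dol :: (encReg RY ++ trY)

/-- first region (rows with their live marks) after broadcasting the coins `bs` -/
def bX (bs : List (Bool × Bool)) (X : List (List Bool × Bool)) : List Row :=
  X.map fun r => ⟨r.1, bs.length, dot bs r.1, false, false, r.2⟩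

/-- second region (rows with their `diff` flags) after broadcasting the coins `bs` -/
def bY (bs : List (Bool × Bool)) (Y : List (List Bool × Bool)) : List Row :=
  Y.map fun r => ⟨r.1, bs.length, dot bs r.1, false, r.2, true⟩

/-- output of the final phase: the first unflagged pair of rows is compared -/
def finalOut : List (List Bool) → List (List Bool × Bool) → Option Bool
  | x :: X, (y, d) :: Y => if d then finalOut X Y else if x = y then some true else none
  | _, _ => some false

theorem sweeps_add {S Γ : Type} (f : S → Γ → S × Γ) (e : S → Bool × Bool → S ⊕ Option Bool)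
    (κ : ℕ → Bool × Bool) (s : S) (u : List Γ) (j k : ℕ) (s' : S) (u' : List Γ)
    (h : sweeps f e κ s u j = Sum.inl (s', u')) :
    sweeps f e κ s u (j + k) = sweeps f e (fun i => κ (j + i)) s' u' k := by
  induction k with
  | zero => simpa [sweeps] using h
  | succ k ih =>
    rw [← Nat.add_assoc]
    simp only [sweeps, ih]

theorem sweeps_out {S Γ : Type} (f : S → Γ → S × Γ) (e : S → Bool × Bool → S ⊕ Option Bool)
    (κ : ℕ → Bool × Bool) (s : S) (u : List Γ) (j k : ℕ) (o : Option Bool)
    (h : sweeps f e κ s u j = Sum.inr o) : sweeps f e κ s u (j + k) = Sum.inr o := by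
  induction k with
  | zero => simpa using h
  | succ k ih =>
    rw [← Nat.add_assoc]
    simp only [sweeps, ih]

theorem sweeps_one_inl {S Γ : Type} (f : S → Γ → S × Γ) (e : S → Bool × Bool → S ⊕ Option Bool)
    (κ : ℕ → Bool × Bool) (s : S) (u : List Γ) (s' : S) (h : e (scan f s u).1 (κ 0) = Sum.inl s') :
    sweeps f e κ s u 1 = Sum.inl (s', (scan f s u).2) := by
  simp [sweeps, h]

theorem sweeps_one_inr {S Γ : Type} (f : S → Γ → S × Γ) (e : S → Bool × Bool → S ⊕ Option Bool)
    (κ : ℕ → Bool × Bool) (s : S) (u : List Γ) (o : Option Bool)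
    (h : e (scan f s u).1 (κ 0) = Sum.inr o) :
    sweeps f e κ s u 1 = Sum.inr o := by
  simp [sweeps, h]

end Pool.Agent.Helper65.OneTape
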