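import Pool.Agent.Helper65.OneTape.BcRun
import Pool.Agent.Helper65.OneTape.CmpRun
import Pool.Agent.Helper17.OneTape.CkRun
import Pool.Agent.Helper96.OT.ParseRun

/-! All rounds of the algorithm. -/

namespace Pool.Agent.Helper65.OneTape

/-- the coins broadcast in round `j` if there are `r` rows -/
def coins (c : ℕ → Bool × Bool) (r j : ℕ) : List (Bool × Bool) :=
  (List.range r).map fun i => c ((2 * r + 1) * j + i)

theorem coins_shift (c : ℕ → Bool × Bool) (r j : ℕ) :
    coins (fun i => c (2 * r + 1 + i)) r j = coins c r (j + 1) := by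
  unfold coins
  refine List.map_congr_left fun i _ => ?_
  exact congrArg c (by ring)

theorem round_run (c : ℕ → Bool × Bool) (f1 : Bool) (r : ℕ) (hr : 1 ≤ r)
    (X Y : List (List Bool × Bool)) (trX trY : List Cell) (hX' : IsBits trX) (hY' : IsBits trY)
    (hX : X.map (fun r => r.1.length) = List.range' 1 r)
    (hY : Y.map (fun r => r.1.length) = List.range' 1 r) :
    ∃ (X' : List (List Bool × Bool)) (trX' trY' : List Cell), IsBits trX' ∧ IsBits trY' ∧
      X'.map Prod.fst = X.map Prod.fst ∧
      (X'.filter fun r => r.2).length = (X.filter fun r => r.2).length / 2 ∧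
      sweeps ft fe (fun i => c (1 + i)) (sbc (c 0) f1) (tp (bX [] X) (bY [] Y) trX trY)
        (2 * r + 1) =
        Sum.inl (if 0 < (X'.filter fun r => r.2).length then sbc (c (2 * r + 1)) false else sck,
          tp (bX [] X') (bY [] (List.zipWith
            (fun x y => (y.1, y.2 || decide (dot (coins c r 0) y.1 ≠ dot (coins c r 0) x)))
              (X.map Prod.fst) Y)) trX' trY') := by
  have hf : (f1 = true ∧ ([] : List (Bool × Bool)) = []) ∨
      (f1 = false ∧ (∀ l ∈ List.range' 1 r, ([] : List (Bool × Bool)).length < l) ∧
        ∀ l ∈ List.range' 1 r, ([] : List (Bool × Bool)).length < l) := by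
    cases f1
    · right
      refine ⟨rfl, ?_, ?_⟩ <;> intro l hl <;> rw [List.mem_range'_1] at hl <;> simp <;> omega
    · left; exact ⟨rfl, rfl⟩
  rcases bc_run (fun i => c (1 + i)) (c 0) f1 [] X Y (List.range' 1 r) (List.range' 1 r) trX trY
    hX' hY' (by simpa using hX) (by simpa using hY) hf with h | h
  · obtain ⟨r', hr', h1, -, tX1, tY1, hb1, hb2, h2⟩ := h
    have hrr : r = r' := by
      have := congrArg List.length h1
      simpa using this
    subst hrr
    have hlen : X.length = r := by
      have := congrArg List.length hX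
      simpa using this
    have hlenY : Y.length = r := by
      have := congrArg List.length hY
      simpa using this
    have hco : c 0 :: (List.range (r - 1)).map (fun i => c (1 + i)) = coins c r 0 := by
      obtain ⟨s, rfl⟩ : ∃ s, r = s + 1 := ⟨r - 1, by omega⟩
      unfold coins
      rw [List.range_succ_eq_map]
      simp [Function.comp_def, Nat.add_comm]
    rw [List.nil_append, hco] at h2
    have hcl : (coins c r 0).length = r := by simp [coins]
    have hXb : ∀ x ∈ X, x.1.length ≤ (coins c r 0).length := by
      intro x hx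
      have : x.1.length ∈ X.map (fun r => r.1.length) := List.mem_map.2 ⟨x, hx, rfl⟩
      rw [hX, List.mem_range'_1] at this
      omega
    have hYb : ∀ x ∈ Y, x.1.length ≤ (coins c r 0).length := by
      intro x hx
      have : x.1.length ∈ Y.map (fun r => r.1.length) := List.mem_map.2 ⟨x, hx, rfl⟩
      rw [hY, List.mem_range'_1] at this
      omega
    obtain ⟨X', trX', trY', hb3, hb4, h3, h4, h5⟩ := cmp_run (fun i => c (1 + (r + i)))
      (coins c r 0) X Y tX1 tY1 hb1 hb2 (by omega) (by rintro rfl; simp at hlen; omega) hXb hYb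
    refine ⟨X', trX', trY', hb3, hb4, h3, h4, ?_⟩
    have h6 := sweeps_add ft fe (fun i => c (1 + i)) (sbc (c 0) f1)
      (tp (bX [] X) (bY [] Y) trX trY) r (r + 1) _ _ h2
    rw [show 2 * r + 1 = r + (r + 1) by ring, h6]
    rw [hlen] at h5
    rw [h5, List.zipWith_map_left, show 1 + (r + r) = r + (r + 1) by ring]
  · exfalso
    exact h.1 ⟨r, hr, by simp, by simp⟩

/-- the flag of a pair of rows after `R` rounds -/
def flag (c : ℕ → Bool × Bool) (r R : ℕ) (x y : List Bool) : Bool :=
  decide (∃ j < R, dot (coins c r j) y ≠ dot (coins c r j) x)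

theorem rounds_run (L : ℕ) : ∀ (c : ℕ → Bool × Bool) (f1 : Bool) (r : ℕ), 1 ≤ r →
    ∀ (X Y : List (List Bool × Bool)) (trX trY : List Cell), IsBits trX → IsBits trY →
    X.map (fun r => r.1.length) = List.range' 1 r →
    Y.map (fun r => r.1.length) = List.range' 1 r →
    (X.filter fun r => r.2).length = L → 1 ≤ L →
    ∃ (X' : List (List Bool × Bool)) (trX' trY' : List Cell), IsBits trX' ∧ IsBits trY' ∧
      X'.map Prod.fst = X.map Prod.fst ∧
      sweeps ft fe (fun i => c (1 + i)) (sbc (c 0) f1) (tp (bX [] X) (bY [] Y) trX trY)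
        ((2 * r + 1) * (Nat.log 2 L + 1)) =
        Sum.inl (sck, tp (bX [] X') (bY [] (List.zipWith
            (fun x y => (y.1, y.2 || flag c r (Nat.log 2 L + 1) x y.1))
              (X.map Prod.fst) Y)) trX' trY') := by
  induction L using Nat.strong_induction_on with
  | _ L ih =>
    intro c f1 r hr X Y trX trY hX' hY' hX hY hL hL1
    obtain ⟨X1, trX1, trY1, hb1, hb2, h1, h2, h3⟩ := round_run c f1 r hr X Y trX trY hX' hY' hX hY
    by_cases hz : 0 < (X1.filter fun r => r.2).length
    · rw [if_pos hz] at h3
      have hX1 : X1.map (fun r => r.1.length) = List.range' 1 r := by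
        have : X1.map (fun r => r.1.length) = (X1.map Prod.fst).map List.length := by simp
        rw [this, h1, List.map_map]; simpa [Function.comp_def] using hX
      set Y1 := List.zipWith (fun x (y : List Bool × Bool) =>
        (y.1, y.2 || decide (dot (coins c r 0) y.1 ≠ dot (coins c r 0) x))) (X.map Prod.fst) Y
        with hY1def
      have hlen : X.length = r := by simpa using congrArg List.length hX
      have hlenY : Y.length = r := by simpa using congrArg List.length hY
      have hY1 : Y1.map (fun r => r.1.length) = List.range' 1 r := by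
        rw [← hY, hY1def]
        apply List.ext_getElem
        · simp [hlen, hlenY]
        · intro i hi1 hi2
          simp
      have hLlt : (X1.filter fun r => r.2).length < L := by rw [h2, hL]; omega
      have hlog : Nat.log 2 L = Nat.log 2 (L / 2) + 1 :=
        Nat.log_of_one_lt_of_le (by norm_num) (by rw [h2, hL] at hz; omega)
      obtain ⟨X2, trX2, trY2, hb3, hb4, h4, h5⟩ := ih _ hLlt (fun i => c (2 * r + 1 + i)) false r hr
        X1 Y1 trX1 trY1 hb1 hb2 hX1 hY1 rfl hz
      rw [h2, hL] at h5
      refine ⟨X2, trX2, trY2, hb3, hb4, h4.trans h1, ?_⟩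
      have h6 := sweeps_add ft fe (fun i => c (1 + i)) (sbc (c 0) f1)
        (tp (bX [] X) (bY [] Y) trX trY) (2 * r + 1) ((2 * r + 1) * (Nat.log 2 (L / 2) + 1)) _ _ h3
      rw [hlog, show (2 * r + 1) * (Nat.log 2 (L / 2) + 1 + 1) =
        2 * r + 1 + (2 * r + 1) * (Nat.log 2 (L / 2) + 1) by ring, h6]
      have e1 : (fun i => c (1 + (2 * r + 1 + i))) = (fun i => c (2 * r + 1 + (1 + i))) := by
        funext i; congr 1; ring
      rw [e1]
      simp only [Nat.add_zero] at h5
      rw [h5]
      congr 4
      rw [h1]
      apply List.ext_getElem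
      · simp [hY1def, hlen, hlenY]
      · intro i hi1 hi2
        simp only [hY1def, List.getElem_zipWith, Prod.mk.injEq, true_and]
        unfold flag
        rw [Bool.or_assoc]
        congr 1
        rw [← Bool.decide_or]
        apply decide_eq_decide.2
        constructor
        · rintro (h | ⟨j, hj, h⟩)
          · exact ⟨0, by omega, h⟩
          · rw [coins_shift] at h
            exact ⟨j + 1, by omega, h⟩
        · rintro ⟨j, hj, h⟩
          obtain _ | j := j
          · left; exact h
          · right
            refine ⟨j, by omega, ?_⟩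
            rw [coins_shift]; exact h
    · rw [if_neg hz] at h3
      have hL2 : L / 2 = 0 := by rw [← hL, ← h2]; omega
      have hL3 : L = 1 := by omega
      subst hL3
      refine ⟨X1, trX1, trY1, hb1, hb2, h1, ?_⟩
      have e0 : Nat.log 2 1 + 1 = 1 := by norm_num
      rw [e0, Nat.mul_one, h3]
      have e2 : ∀ (x : List Bool) (y : List Bool × Bool),
          decide (dot (coins c r 0) y.1 ≠ dot (coins c r 0) x) = flag c r 1 x y.1 := by
        intro x y
        unfold flag
        apply decide_eq_decide.2
        constructor
        · intro h; exact ⟨0, by omega, h⟩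
        · rintro ⟨j, hj, h⟩
          obtain rfl : j = 0 := by omega
          exact h
      simp only [e2]

end Pool.Agent.Helper65.OneTape
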