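import Pool.Agent.Helper65.OneTape.Algo

/-! Effect of the sweeps of the algorithm on encoded tapes. -/

namespace Pool.Agent.Helper65.OneTape

theorem scan_append {S Γ : Type} (f : S → Γ → S × Γ) (s : S) (u v : List Γ) :
    scan f s (u ++ v) = ((scan f (scan f s u).1 v).1, (scan f s u).2 ++ (scan f (scan f s u).1 v).2) := by
  induction u generalizing s with
  | nil => simp [scan]
  | cons a u ih => simp [scan, ih]

theorem scan_length {S Γ : Type} (f : S → Γ → S × Γ) (s : S) (u : List Γ) :
    (scan f s u).2.length = u.length := by
  induction u generalizing s with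
  | nil => simp [scan]
  | cons a u ih => simp [scan, ih]

/-- bits of a row, the first `k` of them marked -/
def encBits : List Bool → ℕ → List Cell
  | [], _ => []
  | v :: xs, 0 => .bit v false :: encBits xs 0
  | v :: xs, k + 1 => .bit v true :: encBits xs k

theorem encBits_of_le (xs : List Bool) (k l : ℕ) (hk : xs.length ≤ k) (hl : xs.length ≤ l) :
    encBits xs k = encBits xs l := by
  induction xs generalizing k l with
  | nil => simp [encBits]
  | cons v xs ih =>
    obtain _ | k := k
    · simp at hk
    obtain _ | l := l
    · simp at hl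
    simp only [encBits]
    rw [ih k l (by simpa using hk) (by simpa using hl)]

/-- a row with its annotations -/
structure Row where
  xs : List Bool
  k : ℕ
  p : Bool × Bool
  vis : Bool
  diff : Bool
  live : Bool

def encRow (R : Row) : List Cell := encBits R.xs R.k ++ [.hash R.p R.vis R.diff R.live]

def encReg (L : List Row) : List Cell := L.flatMap encRow

@[simp] theorem encReg_nil : encReg [] = [] := rfl
@[simp] theorem encReg_cons (R : Row) (L : List Row) : encReg (R :: L) = encRow R ++ encReg L := rfl
theorem encReg_append (L M : List Row) : encReg (L ++ M) = encReg L ++ encReg M := by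
  simp [encReg]

def IsBits (u : List Cell) : Prop := ∀ c ∈ u, ∃ v m, c = Cell.bit v m

theorem isBits_nil : IsBits [] := by intro c hc; simp at hc

theorem IsBits.cons {v m : Bool} {u : List Cell} (h : IsBits u) : IsBits (.bit v m :: u) := by
  intro c hc
  rcases List.mem_cons.1 hc with h1 | h1
  · exact ⟨v, m, h1⟩
  · exact h c h1

/-- sum of the products of the coins with the bits -/
def dot : List (Bool × Bool) → List Bool → Bool × Bool
  | b :: bs, v :: xs => bx (bm b v) (dot bs xs)
  | _, _ => (false, false)

@[simp] theorem bx_zero (a : Bool × Bool) : bx a (false, false) = a := by simp [bx]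
@[simp] theorem zero_bx (a : Bool × Bool) : bx (false, false) a = a := by simp [bx]

theorem bx_assoc (a b c : Bool × Bool) : bx (bx a b) c = bx a (bx b c) := by
  simp [bx]

theorem bx_comm (a b : Bool × Bool) : bx a b = bx b a := by
  simp [bx, Bool.xor_comm]

/-- the contribution of a coin pair to the row `xs` at position `k` -/
def contrib (b : Bool × Bool) : List Bool → ℕ → Bool × Bool
  | [], _ => (false, false)
  | v :: _, 0 => bm b v
  | _ :: xs, k + 1 => contrib b xs k

theorem dot_snoc (bs : List (Bool × Bool)) (b : Bool × Bool) (xs : List Bool) :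
    dot (bs ++ [b]) xs = bx (dot bs xs) (contrib b xs bs.length) := by
  induction bs generalizing xs with
  | nil =>
    cases xs with
    | nil => simp [dot, contrib]
    | cons v xs => simp [dot, contrib]
  | cons c bs ih =>
    cases xs with
    | nil => simp [dot, contrib]
    | cons v xs => simp [dot, contrib, ih, bx_assoc]

/-! ### the broadcasting sweep -/

/-- number of unmarked bits seen, capped by 2 -/
def rsOf (xs : List Bool) (k : ℕ) : Fin 3 :=
  if xs.length ≤ k then 0 else if xs.length = k + 1 then 1 else 2

theorem scan_bc_unmarked (b : Bool × Bool) (y f1 : Bool) (rs : Fin 3) (acc : Bool × Bool)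
    (n1 u ux ok : Bool) (hrs : rs ≠ 0) (xs : List Bool) :
    scan ft (.bc b y f1 rs acc n1 u ux ok) (encBits xs 0) =
      (.bc b y f1 (if xs = [] then rs else 2) acc n1 u ux ok, encBits xs 0) := by
  induction xs generalizing rs with
  | nil => simp [encBits, scan]
  | cons v xs ih =>
    simp only [encBits, scan, ft, fbc, Bool.false_eq_true, if_false, hrs]
    rw [ih 2 (by decide)]
    simp

theorem scan_bc_bits (b : Bool × Bool) (y f1 : Bool) (n1 u ux ok : Bool) (xs : List Bool) (k : ℕ) :
    scan ft (.bc b y f1 0 (false, false) n1 u ux ok) (encBits xs k) =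
      (.bc b y f1 (rsOf xs k) (contrib b xs k) n1 u ux ok, encBits xs (k + 1)) := by
  induction xs generalizing k with
  | nil => simp [encBits, scan, rsOf, contrib]
  | cons v xs ih =>
    cases k with
    | zero =>
      simp only [encBits, scan, ft, fbc, Bool.false_eq_true, if_false, if_true]
      rw [scan_bc_unmarked _ _ _ _ _ _ _ _ _ (by decide)]
      cases xs with
      | nil => simp [rsOf, contrib, encBits]
      | cons w xs => simp [rsOf, contrib]
    | succ k =>
      simp only [encBits, scan, ft, fbc, if_true]
      rw [ih k]
      simp [rsOf, contrib]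

/-- effect of the broadcasting sweep on a row -/
def bcRow (b : Bool × Bool) (R : Row) : Row :=
  { R with k := R.k + 1, p := bx R.p (contrib b R.xs R.k) }

/-- effect of the broadcasting sweep on the flags -/
def bcFold (f1 : Bool) (k : ℕ) : List ℕ → Bool × Bool × Bool → Bool × Bool × Bool
  | [], s => s
  | l :: ls, s => bcFold f1 k ls (s.1 || decide (l = k + 1), s.2.1 || decide (k + 1 < l),
      s.2.2 && (if l ≤ k then (!s.1 && !f1) else if l = k + 1 then !s.1 else s.1))

theorem scan_bc_reg (b : Bool × Bool) (y f1 : Bool) (n1 u ux ok : Bool) (k : ℕ) (L : List Row)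
    (hL : ∀ R ∈ L, R.k = k) :
    scan ft (.bc b y f1 0 (false, false) n1 u ux ok) (encReg L) =
      (.bc b y f1 0 (false, false) (bcFold f1 k (L.map fun R => R.xs.length) (n1, u, ok)).1
        (bcFold f1 k (L.map fun R => R.xs.length) (n1, u, ok)).2.1 ux
        (bcFold f1 k (L.map fun R => R.xs.length) (n1, u, ok)).2.2, encReg (L.map (bcRow b))) := by
  induction L generalizing n1 u ok with
  | nil => simp [scan, bcFold]
  | cons R L ih =>
    have hk : R.k = k := hL R (by simp)
    rw [encReg_cons, scan_append, encRow, scan_append, scan_bc_bits]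
    simp only [scan, ft, fbc]
    have h1 : (decide (rsOf R.xs R.k = 1)) = decide (R.xs.length = k + 1) := by
      rw [hk]; unfold rsOf; split_ifs <;> simp_all <;> omega
    have h2 : (decide (rsOf R.xs R.k = 2)) = decide (k + 1 < R.xs.length) := by
      rw [hk]; unfold rsOf; split_ifs <;> simp_all <;> omega
    have h3 : (if rsOf R.xs R.k = 0 then (!n1 && !f1) else if rsOf R.xs R.k = 1 then !n1 else n1) =
        (if R.xs.length ≤ k then (!n1 && !f1) else if R.xs.length = k + 1 then !n1 else n1) := by
      rw [hk]; unfold rsOf; split_ifs <;> simp_all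
    rw [h1, h2, h3, ih _ _ _ (fun R' hR' => hL R' (by simp [hR']))]
    simp only [List.map_cons, bcFold, encReg_cons, bcRow, encRow, hk]

theorem scan_bc_tr (b : Bool × Bool) (y f1 : Bool) (rs : Fin 3) (acc : Bool × Bool)
    (n1 u ux ok : Bool) (tr : List Cell) (htr : IsBits tr) :
    ∃ rs' acc' tr', IsBits tr' ∧ scan ft (.bc b y f1 rs acc n1 u ux ok) tr =
      (.bc b y f1 rs' acc' n1 u ux ok, tr') := by
  induction tr generalizing rs acc with
  | nil => exact ⟨rs, acc, [], isBits_nil, rfl⟩
  | cons c tr ih =>
    obtain ⟨v, m, rfl⟩ := htr c (by simp)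
    have htr' : IsBits tr := fun c hc => htr c (by simp [hc])
    simp only [scan, ft, fbc]
    split_ifs
    · obtain ⟨rs', acc', tr', h1, h2⟩ := ih rs acc htr'
      exact ⟨rs', acc', _, h1.cons, by rw [h2]⟩
    · obtain ⟨rs', acc', tr', h1, h2⟩ := ih 1 (bm b v) htr'
      exact ⟨rs', acc', _, h1.cons, by rw [h2]⟩
    · obtain ⟨rs', acc', tr', h1, h2⟩ := ih 2 acc htr'
      exact ⟨rs', acc', _, h1.cons, by rw [h2]⟩

/-! ### the moving sweep -/

theorem scan_mv_bits_off (cmp y : Bool) (par : Bool × Bool) (more : Bool) (xs : List Bool) (k : ℕ) :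
    scan ft (.mv cmp y false par more) (encBits xs k) = (.mv cmp y false par more, encBits xs k) := by
  induction xs generalizing k with
  | nil => simp [encBits, scan]
  | cons v xs ih => cases k <;> simp [encBits, scan, ft, fmv, ih]

theorem scan_mv_bits_on (cmp y : Bool) (par : Bool × Bool) (more : Bool) (xs : List Bool) (k : ℕ) :
    scan ft (.mv cmp y true par more) (encBits xs k) =
      (.mv cmp y true par more, encBits xs (max k xs.length)) := by
  induction xs generalizing k with
  | nil => simp [encBits, scan]
  | cons v xs ih =>
    have h1 : encBits (v :: xs) (max k (v :: xs).length) = .bit v true :: encBits xs xs.length := by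
      rw [encBits_of_le (v :: xs) _ (xs.length + 1) (le_max_right _ _) (by simp)]
      rfl
    rw [h1]
    cases k with
    | zero =>
      simp only [encBits, scan, ft, fmv, ih]
      simp
    | succ k =>
      simp only [encBits, scan, ft, fmv, ih]
      rw [encBits_of_le xs (max k xs.length) xs.length (le_max_right _ _) le_rfl]
      simp

theorem scan_mv_off (cmp y : Bool) (par : Bool × Bool) (more : Bool) (L : List Row)
    (hL : ∀ R ∈ L, R.vis = false) :
    scan ft (.mv cmp y false par more) (encReg L) =
      (.mv cmp y false par (more || (y && decide (L ≠ []))), encReg L) := by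
  induction L generalizing more with
  | nil => simp [scan]
  | cons R L ih =>
    rw [encReg_cons, scan_append, encRow, scan_append, scan_mv_bits_off]
    simp only [scan, ft, fmv, Bool.false_eq_true, if_false, hL R (by simp)]
    rw [ih _ (fun R' hR' => hL R' (by simp [hR']))]
    cases y <;> cases more <;> simp

theorem scan_mv_vis (cmp y : Bool) (par : Bool × Bool) (more : Bool) (L : List Row)
    (hL : ∀ R ∈ L, R.vis = true ∧ R.xs.length ≤ R.k) :
    scan ft (.mv cmp y true par more) (encReg L) = (.mv cmp y true par more, encReg L) := by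
  induction L with
  | nil => simp [scan]
  | cons R L ih =>
    have h := hL R (by simp)
    rw [encReg_cons, scan_append, encRow, scan_append, scan_mv_bits_on]
    simp only [scan, ft, fmv, if_true, h.1]
    rw [ih (fun R' hR' => hL R' (by simp [hR'])),
      encBits_of_le R.xs (max R.k R.xs.length) R.k (le_max_right _ _) h.2]

/-- effect of the moving sweep on the current row -/
def mvRow (cmp y : Bool) (par : Bool × Bool) (R : Row) : Row :=
  { R with k := max R.k R.xs.length, vis := true,
           diff := (R.diff || (cmp && y && decide (R.p ≠ par))) }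

theorem scan_mv_reg (cmp y : Bool) (par : Bool × Bool) (more : Bool) (V W : List Row) (c : Row)
    (hV : ∀ R ∈ V, R.vis = true ∧ R.xs.length ≤ R.k) (hc : c.vis = false)
    (hW : ∀ R ∈ W, R.vis = false) :
    scan ft (.mv cmp y true par more) (encReg (V ++ c :: W)) =
      (.mv cmp y false (if y then par else c.p) (more || (y && decide (W ≠ []))),
        encReg (V ++ mvRow cmp y par c :: W)) := by
  rw [encReg_append, scan_append, scan_mv_vis _ _ _ _ _ hV, encReg_cons, scan_append, encRow,
    scan_append, scan_mv_bits_on]
  simp only [scan, ft, fmv, if_true, hc, Bool.false_eq_true, if_false]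
  rw [scan_mv_off _ _ _ _ _ hW, encReg_append, encReg_cons]
  simp [encRow, mvRow]

theorem scan_mv_tr (cmp y lk : Bool) (par : Bool × Bool) (more : Bool) (tr : List Cell)
    (htr : IsBits tr) :
    ∃ tr', IsBits tr' ∧ scan ft (.mv cmp y lk par more) tr = (.mv cmp y lk par more, tr') := by
  induction tr with
  | nil => exact ⟨[], isBits_nil, rfl⟩
  | cons c tr ih =>
    obtain ⟨v, m, rfl⟩ := htr c (by simp)
    obtain ⟨tr', h1, h2⟩ := ih (fun c hc => htr c (by simp [hc]))
    exact ⟨.bit v (m || lk) :: tr', h1.cons, by simp only [scan, ft, fmv, h2]⟩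

/-! ### the resetting sweep -/

theorem scan_rst_bits (y t kept : Bool) (xs : List Bool) (k : ℕ) :
    scan ft (.rst y t kept) (encBits xs k) = (.rst y t kept, encBits xs 0) := by
  induction xs generalizing k with
  | nil => simp [encBits, scan]
  | cons v xs ih => cases k <;> simp [encBits, scan, ft, frst, ih]

/-- effect of the resetting sweep on the second region -/
def rstRow (R : Row) : Row := ⟨R.xs, 0, (false, false), false, R.diff, R.live⟩

theorem scan_rst_Y (t kept : Bool) (L : List Row) :
    scan ft (.rst true t kept) (encReg L) = (.rst true t kept, encReg (L.map rstRow)) := by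
  induction L with
  | nil => simp [scan]
  | cons R L ih =>
    rw [encReg_cons, scan_append, encRow, scan_append, scan_rst_bits]
    simp only [scan, ft, frst]
    simp only [Bool.not_true, Bool.false_and, Bool.false_eq_true, if_false, Bool.or_false, if_true, ih]
    simp [encRow, rstRow]

/-- number of live rows -/
def liveCount (L : List Row) : ℕ := (L.filter fun R => R.live).length

theorem scan_rst_X (t kept : Bool) (L : List Row) :
    ∃ (t' : Bool) (ls : List Bool), ls.length = L.length ∧
      (ls.filter id).length = (liveCount L + (if t then 1 else 0)) / 2 ∧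
      scan ft (.rst false t kept) (encReg L) =
        (.rst false t' (kept || decide (0 < (ls.filter id).length)),
          encReg (List.zipWith (fun R l => (⟨R.xs, 0, (false, false), false, R.diff, l⟩ : Row)) L ls)) := by
  induction L generalizing t kept with
  | nil => refine ⟨t, [], by simp, ?_, ?_⟩ <;> simp [scan, liveCount]; split_ifs <;> simp
  | cons R L ih =>
    obtain ⟨t', ls, h1, h2, h3⟩ := ih (if R.live then !t else t) (kept || (R.live && t))
    refine ⟨t', (R.live && t) :: ls, by simp [h1], ?_, ?_⟩
    · rw [List.filter_cons]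
      simp only [liveCount, List.filter_cons]
      cases hR : R.live <;> cases t <;> simp_all [liveCount]
      all_goals omega
    · rw [encReg_cons, scan_append, encRow, scan_append, scan_rst_bits]
      simp only [scan, ft, frst]
      simp only [Bool.not_false, Bool.true_and, Bool.false_eq_true, if_false, h3]
      simp only [List.zipWith_cons_cons, encReg_cons, encRow]
      refine Prod.ext ?_ ?_
      · simp only [St.rst.injEq, true_and]
        cases hR : R.live <;> cases t <;> cases kept <;> simp [List.filter_cons]
      · simp

theorem scan_rst_tr (y t kept : Bool) (tr : List Cell) (htr : IsBits tr) :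
    ∃ tr', IsBits tr' ∧ scan ft (.rst y t kept) tr = (.rst y t kept, tr') := by
  induction tr with
  | nil => exact ⟨[], isBits_nil, rfl⟩
  | cons c tr ih =>
    obtain ⟨v, m, rfl⟩ := htr c (by simp)
    obtain ⟨tr', h1, h2⟩ := ih (fun c hc => htr c (by simp [hc]))
    exact ⟨.bit v false :: tr', h1.cons, by simp only [scan, ft, frst, h2]⟩

/-! ### the checking sweep -/

theorem scan_ck_bits_off (y : Bool) (st : Fin 3) (car : Option Bool) (mis df : Bool) (hst : st ≠ 0)
    (xs : List Bool) (k : ℕ) :
    scan ft (.ck y st car mis df) (encBits xs k) = (.ck y st car mis df, encBits xs k) := by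
  induction xs generalizing k with
  | nil => simp [encBits, scan]
  | cons v xs ih => cases k <;> simp [encBits, scan, ft, fck, ih, hst]

theorem scan_ck_bits_full (y : Bool) (st : Fin 3) (car : Option Bool) (mis df : Bool)
    (xs : List Bool) (k : ℕ) (hk : xs.length ≤ k) :
    scan ft (.ck y st car mis df) (encBits xs k) = (.ck y st car mis df, encBits xs k) := by
  induction xs generalizing k with
  | nil => simp [encBits, scan]
  | cons v xs ih =>
    obtain _ | k := k
    · simp at hk
    simp [encBits, scan, ft, fck, ih k (by simpa using hk)]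

theorem scan_ck_bits_X (car : Option Bool) (mis df : Bool) (xs : List Bool) (k : ℕ)
    (hk : k < xs.length) :
    scan ft (.ck false 0 car mis df) (encBits xs k) =
      (.ck false 2 (some xs[k]) mis df, encBits xs (k + 1)) := by
  induction xs generalizing k with
  | nil => simp at hk
  | cons v xs ih =>
    cases k with
    | zero => simp [encBits, scan, ft, fck, scan_ck_bits_off]
    | succ k => simp [encBits, scan, ft, fck, ih k (by simpa using hk)]

theorem scan_ck_bits_Y (car : Option Bool) (mis df : Bool) (xs : List Bool) (k : ℕ)
    (hk : k < xs.length) :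
    scan ft (.ck true 0 car mis df) (encBits xs k) =
      (.ck true 1 car (decide (car ≠ some xs[k])) df, encBits xs (k + 1)) := by
  induction xs generalizing k with
  | nil => simp at hk
  | cons v xs ih =>
    cases k with
    | zero => simp [encBits, scan, ft, fck, scan_ck_bits_off]
    | succ k => simp [encBits, scan, ft, fck, ih k (by simpa using hk)]

theorem scan_ck_vis (y : Bool) (st : Fin 3) (car : Option Bool) (mis df : Bool) (L : List Row)
    (hL : ∀ R ∈ L, R.vis = true ∧ R.xs.length ≤ R.k) :
    scan ft (.ck y st car mis df) (encReg L) = (.ck y st car mis df, encReg L) := by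
  induction L with
  | nil => simp [scan]
  | cons R L ih =>
    have h := hL R (by simp)
    rw [encReg_cons, scan_append, encRow, scan_append, scan_ck_bits_full _ _ _ _ _ _ _ h.2]
    simp only [scan, ft, fck, if_true, h.1]
    rw [ih (fun R' hR' => hL R' (by simp [hR']))]

theorem scan_ck_off (y : Bool) (car : Option Bool) (mis df : Bool) (L : List Row) :
    scan ft (.ck y 2 car mis df) (encReg L) = (.ck y 2 car mis df, encReg L) := by
  induction L with
  | nil => simp [scan]
  | cons R L ih =>
    rw [encReg_cons, scan_append, encRow, scan_append, scan_ck_bits_off _ _ _ _ _ (by decide)]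
    simp only [scan, ft, fck]
    cases hv : R.vis <;> cases y <;> simp [ih]

theorem scan_ck_tr (y : Bool) (car : Option Bool) (mis df : Bool) (tr : List Cell)
    (htr : IsBits tr) :
    scan ft (.ck y 2 car mis df) tr = (.ck y 2 car mis df, tr) := by
  induction tr with
  | nil => rfl
  | cons c tr ih =>
    obtain ⟨v, m, rfl⟩ := htr c (by simp)
    have := ih (fun c hc => htr c (by simp [hc]))
    simp [scan, ft, fck, this]

theorem scan_ck_X_lt (car : Option Bool) (mis df : Bool) (V W : List Row) (c : Row)
    (hV : ∀ R ∈ V, R.vis = true ∧ R.xs.length ≤ R.k) (hc : c.k < c.xs.length) :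
    scan ft (.ck false 0 car mis df) (encReg (V ++ c :: W)) =
      (.ck false 2 (some c.xs[c.k]) mis df, encReg (V ++ { c with k := c.k + 1 } :: W)) := by
  rw [encReg_append, scan_append, scan_ck_vis _ _ _ _ _ _ hV, encReg_cons, scan_append, encRow,
    scan_append, scan_ck_bits_X _ _ _ _ _ hc]
  simp only [scan, ft, fck]
  cases hv : c.vis <;> simp [scan_ck_off, encReg_append, encRow, hv]

theorem scan_ck_X_ge (car : Option Bool) (mis df : Bool) (V W : List Row) (c : Row)
    (hV : ∀ R ∈ V, R.vis = true ∧ R.xs.length ≤ R.k) (hc : c.xs.length ≤ c.k) (hv : c.vis = false) :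
    scan ft (.ck false 0 car mis df) (encReg (V ++ c :: W)) =
      (.ck false 2 none mis df, encReg (V ++ c :: W)) := by
  rw [encReg_append, scan_append, scan_ck_vis _ _ _ _ _ _ hV, encReg_cons, scan_append, encRow,
    scan_append, scan_ck_bits_full _ _ _ _ _ _ _ hc]
  simp only [scan, ft, fck, hv]
  simp [scan_ck_off]

theorem scan_ck_Y_lt (car : Option Bool) (mis df : Bool) (V W : List Row) (c : Row)
    (hV : ∀ R ∈ V, R.vis = true ∧ R.xs.length ≤ R.k) (hc : c.k < c.xs.length) (hv : c.vis = false) :
    scan ft (.ck true 0 car mis df) (encReg (V ++ c :: W)) =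
      (.ck true 2 car (decide (car ≠ some c.xs[c.k])) c.diff,
        encReg (V ++ { c with k := c.k + 1 } :: W)) := by
  rw [encReg_append, scan_append, scan_ck_vis _ _ _ _ _ _ hV, encReg_cons, scan_append, encRow,
    scan_append, scan_ck_bits_Y _ _ _ _ _ hc]
  simp only [scan, ft, fck, hv]
  simp [scan_ck_off, encReg_append, encRow, hv]

theorem scan_ck_Y_ge (car : Option Bool) (mis df : Bool) (V W : List Row) (c : Row)
    (hV : ∀ R ∈ V, R.vis = true ∧ R.xs.length ≤ R.k) (hc : c.xs.length ≤ c.k) (hv : c.vis = false) :
    scan ft (.ck true 0 car mis df) (encReg (V ++ c :: W)) =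
      (.ck true 2 car mis c.diff, encReg (V ++ c :: W)) := by
  rw [encReg_append, scan_append, scan_ck_vis _ _ _ _ _ _ hV, encReg_cons, scan_append, encRow,
    scan_append, scan_ck_bits_full _ _ _ _ _ _ _ hc]
  simp only [scan, ft, fck, hv]
  simp [scan_ck_off]

end Pool.Agent.Helper65.OneTape
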