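import Pool.Agent.Helper65.OneTape.Defs

namespace Pool.Agent.Helper65.OneTape

/-- left-to-right letter-to-letter transduction of a list -/
def scan {S Γ : Type} (f : S → Γ → S × Γ) : S → List Γ → S × List Γ
  | s, [] => (s, [])
  | s, a :: u => ((scan f (f s a).1 u).1, (f s a).2 :: (scan f (f s a).1 u).2)

/-- `k` sweeps over the tape `u`; at the end of sweep `i` (from `0`) the pair of coins `κ i`
is used by `e` to find the next state or the output. -/
def sweeps {S Γ : Type} (f : S → Γ → S × Γ) (e : S → Bool × Bool → S ⊕ Option Bool)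
    (κ : ℕ → Bool × Bool) (s : S) (u : List Γ) : ℕ → (S × List Γ) ⊕ Option Bool
  | 0 => Sum.inl (s, u)
  | k + 1 =>
    match sweeps f e κ s u k with
    | Sum.inl (s', u') =>
      match e (scan f s' u').1 (κ k) with
      | Sum.inl s'' => Sum.inl (s'', (scan f s' u').2)
      | Sum.inr o => Sum.inr o
    | Sum.inr o => Sum.inr o

end Pool.Agent.Helper65.OneTape
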