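import Pool.Agent.Helper65.OneTape.Count

/-! The fast zero-error machine. -/

namespace Pool.Agent.Helper65.OneTape

theorem time_bound (n : ℕ) : (((2 * n + 2) * P n : ℕ) : ℝ) ≤
    100 * ((n : ℝ) + 2) ^ (3 / 2 : ℝ) * Real.log ((n : ℝ) + 2) := by
  have hm : (2 : ℝ) ≤ (n : ℝ) + 2 := by have : (0 : ℝ) ≤ n := Nat.cast_nonneg n; linarith
  set m : ℝ := (n : ℝ) + 2 with hmdef
  have hL : (0.69 : ℝ) ≤ Real.log m := by
    have h1 : Real.log 2 ≤ Real.log m := Real.log_le_log (by norm_num) hm
    have := Real.log_two_gt_d9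
    linarith
  have hs1 : (1 : ℝ) ≤ Real.sqrt m := by
    rw [Real.one_le_sqrt]; linarith
  have hs : ((Nat.sqrt n : ℕ) : ℝ) ≤ Real.sqrt m := by
    apply Real.le_sqrt_of_sq_le
    have h1 : Nat.sqrt n * Nat.sqrt n ≤ n := Nat.sqrt_le n
    have h2 : ((Nat.sqrt n : ℕ) : ℝ) * (Nat.sqrt n : ℕ) ≤ n := by exact_mod_cast h1
    nlinarith
  have hl : ((Nat.log 2 n : ℕ) : ℝ) ≤ 1.5 * Real.log m := by
    rcases Nat.eq_zero_or_pos n with h0 | h0
    · rw [h0]; simp; linarith
    · have h1 : 2 ^ Nat.log 2 n ≤ n := Nat.pow_log_le_self 2 (by omega)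
      have h2 : ((2 : ℝ) ^ Nat.log 2 n) ≤ m := by
        have : ((2 ^ Nat.log 2 n : ℕ) : ℝ) ≤ n := by exact_mod_cast h1
        push_cast at this
        linarith
      have h3 := Real.log_le_log (by positivity) h2
      rw [Real.log_pow] at h3
      have h4 := Real.log_two_gt_d9
      have h5 : (0 : ℝ) ≤ (Nat.log 2 n : ℕ) := Nat.cast_nonneg _
      nlinarith
  have hsL : (0.69 : ℝ) ≤ Real.sqrt m * Real.log m := by nlinarith
  have hP : (P n : ℝ) ≤ 40 * (Real.sqrt m * Real.log m) := by
    unfold P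
    push_cast
    have hs0 : (0 : ℝ) ≤ (Nat.sqrt n : ℕ) := Nat.cast_nonneg _
    have hl0 : (0 : ℝ) ≤ (Nat.log 2 n : ℕ) := Nat.cast_nonneg _
    have h1 : (2 * ((Nat.sqrt n : ℕ) : ℝ) + 1) * ((Nat.log 2 n : ℕ) + 1) ≤
        (3 * Real.sqrt m) * (3 * Real.log m) := by
      apply mul_le_mul
      · linarith
      · linarith
      · positivity
      · positivity
    have h2 : Real.sqrt m ≤ 1.5 * (Real.sqrt m * Real.log m) := by nlinarith
    nlinarith
  have hpow : m ^ (3 / 2 : ℝ) = m * Real.sqrt m := by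
    rw [Real.sqrt_eq_rpow, show (3 / 2 : ℝ) = 1 + 1 / 2 by norm_num,
      Real.rpow_add (by linarith), Real.rpow_one]
  rw [hpow]
  push_cast
  have hP0 : (0 : ℝ) ≤ P n := Nat.cast_nonneg _
  have hm2 : 2 * (n : ℝ) + 2 ≤ 2 * m := by rw [hmdef]; linarith
  calc (2 * (n : ℝ) + 2) * (P n : ℝ) ≤ (2 * m) * (40 * (Real.sqrt m * Real.log m)) := by
        apply mul_le_mul hm2 hP hP0 (by linarith)
    _ = 80 * (m * Real.sqrt m * Real.log m) := by ring
    _ ≤ 100 * (m * Real.sqrt m * Real.log m) := by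
        apply mul_le_mul_of_nonneg_right (by norm_num)
        have : 0 ≤ Real.log m := by linarith
        positivity
    _ = 100 * (m * Real.sqrt m) * Real.log m := by ring

theorem raw_injective : Function.Injective Cell.raw := by
  intro a b h
  simpa using h

theorem sweeps_eq {S Γ : Type} {f : S → Γ → S × Γ} {e : S → Bool × Bool → S ⊕ Option Bool}
    {κ κ' : ℕ → Bool × Bool} {s : S} {u : List Γ} {k : ℕ} {o : (S × List Γ) ⊕ Option Bool}
    (h : sweeps f e κ s u k = o) (hκ : κ = κ') : sweeps f e κ' s u k = o := by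
  rw [← hκ]; exact h

open Classical in
theorem upper : ∃ (Q Γ : Type) (_ : Finite Q) (_ : Finite Γ) (inp : Option Bool → Γ) (q₀ : Q)
    (δ : Bool → Q → Γ → Q × Γ × SignType) (out : Q → Option (Option Bool)) (T : ℕ → ℕ) (C : ℝ),
    Function.Injective inp ∧
    (∀ n : ℕ, (T n : ℝ) ≤ C * ((n : ℝ) + 2) ^ (3 / 2 : ℝ) * Real.log ((n : ℝ) + 2)) ∧
    ∀ w : List Bool,
      (∀ ω : Fin (T w.length) → Bool,
        out (run out (fun t => δ (coin ω t)) (q₀, 0, fun z => inp (cell w z)) (T w.length)).1 =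
          some none ∨
        out (run out (fun t => δ (coin ω t)) (q₀, 0, fun z => inp (cell w z)) (T w.length)).1 =
          some (some (decide (w ∈ Lang)))) ∧
      4 * Nat.card {ω : Fin (T w.length) → Bool |
        out (run out (fun t => δ (coin ω t)) (q₀, 0, fun z => inp (cell w z)) (T w.length)).1 =
          some none} ≤ 2 ^ T w.length := by
  obtain ⟨Q, Γ, hQ, hΓ, inp, q₀, δ, out, hinp, hrun⟩ :=
    Pool.Agent.Helper75.LV4.compile ft fe (.parse none false) Cell.raw raw_injective
  refine ⟨Q, Γ, hQ, hΓ, inp, q₀, δ, out, fun n => (2 * n + 2) * P n, 100, hinp, time_bound, ?_⟩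
  intro w
  set n := w.length with hn
  set N := (2 * n + 2) * P n with hN
  have hkey : ∀ ω : Fin N → Bool, ∃ o : Option Bool,
      out (run out (fun t => δ (coin ω t)) (q₀, 0, fun z => inp (cell w z)) N).1 = some o ∧
      (∀ b, o = some b → (b = true ↔ w ∈ Lang)) ∧
      (o = none → ∃ r, 1 ≤ r ∧ r ≤ Nat.sqrt n ∧
        (rowsX w).map List.length = List.range' 1 r ∧
        (rowsY w).map List.length = List.range' 1 r ∧
        ∃ p ∈ (rowsX w).zip (rowsY w), p.1 ≠ p.2 ∧
          ∀ j < Nat.log 2 r + 1, dot (coins (kap n N ω) r j) p.2 =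
            dot (coins (kap n N ω) r j) p.1) := by
    intro ω
    obtain ⟨o, h1, h2, h3⟩ := alg_run w (kap n N ω)
    exact ⟨o, hrun w (coin ω) (P n) o h1, h2, h3⟩
  constructor
  · intro ω
    obtain ⟨o, h1, h2, -⟩ := hkey ω
    rcases o with _ | b
    · left; exact h1
    · right
      rw [h1]
      have := h2 b rfl
      congr 2
      by_cases hw : w ∈ Lang
      · rw [decide_eq_true hw]; exact this.2 hw
      · rw [decide_eq_false hw]
        cases b
        · rfl
        · exact absurd (this.1 rfl) hw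
  · by_cases hs : ∃ r, 1 ≤ r ∧ r ≤ Nat.sqrt n ∧ (rowsX w).map List.length = List.range' 1 r ∧
        (rowsY w).map List.length = List.range' 1 r
    · obtain ⟨r, hr, hrs, h1, h2⟩ := hs
      have hb := bad_bound n r N hr (by
        rw [hN]
        apply Nat.mul_le_mul_left
        have hl : Nat.log 2 r ≤ Nat.log 2 n :=
          Nat.log_mono_right (hrs.trans (Nat.sqrt_le_self _))
        have : (2 * r + 1) * (Nat.log 2 r + 1) ≤ (2 * Nat.sqrt n + 1) * (Nat.log 2 n + 1) :=
          Nat.mul_le_mul (by omega) (by omega)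
        unfold P
        omega) (rowsX w) (rowsY w) h1 h2
      refine le_trans (Nat.mul_le_mul_left _ ?_) hb
      apply Nat.card_mono (Set.toFinite _)
      intro ω hω
      obtain ⟨o, h3, -, h5⟩ := hkey ω
      rw [Set.mem_ofPred_eq] at hω
      rw [hω] at h3
      obtain rfl : o = none := by simpa using h3.symm
      obtain ⟨r', -, -, h6, -, h7⟩ := h5 rfl
      have hrr : r' = r := by
        have e1 : (rowsX w).length = r' := by simpa using congrArg List.length h6
        have e2 : (rowsX w).length = r := by simpa using congrArg List.length h1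
        omega
      subst hrr
      exact h7
    · have hemp : {ω : Fin N → Bool |
          out (run out (fun t => δ (coin ω t)) (q₀, 0, fun z => inp (cell w z)) N).1 =
            some none} = ∅ := by
        apply Set.eq_empty_of_forall_notMem
        intro ω hω
        rw [Set.mem_ofPred_eq] at hω
        obtain ⟨o, h3, -, h5⟩ := hkey ω
        rw [hω] at h3
        obtain rfl : o = none := by simpa using h3.symm
        obtain ⟨r', h4, h5, h6, h7, -⟩ := h5 rfl
        exact hs ⟨r', h4, h5, h6, h7⟩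
      rw [hemp]
      simp

end Pool.Agent.Helper65.OneTape
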