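import Pool.Agent.Helper65.OneTape.Rounds

/-! The whole algorithm. -/

namespace Pool.Agent.Helper65.OneTape

theorem finalOut_true (X : List (List Bool)) : ∀ (Y : List (List Bool × Bool)),
    finalOut X Y = some true → ∃ q ∈ X.zip Y, q.1 = q.2.1 := by
  induction X with
  | nil => intro Y h; simp [finalOut] at h
  | cons x X ih =>
    intro Y h
    obtain _ | ⟨⟨y, d⟩, Y⟩ := Y
    · simp [finalOut] at h
    · simp only [finalOut] at h
      by_cases hd : d
      · rw [if_pos hd] at h
        obtain ⟨q, hq, h1⟩ := ih Y h
        exact ⟨q, by simp [hq], h1⟩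
      · rw [if_neg hd] at h
        by_cases hxy : x = y
        · exact ⟨(x, y, d), by simp, hxy⟩
        · rw [if_neg hxy] at h; simp at h

theorem finalOut_false (X : List (List Bool)) : ∀ (Y : List (List Bool × Bool)),
    finalOut X Y = some false → ∀ q ∈ X.zip Y, q.2.2 = true := by
  induction X with
  | nil => intro Y h; simp
  | cons x X ih =>
    intro Y h
    obtain _ | ⟨⟨y, d⟩, Y⟩ := Y
    · simp
    · simp only [finalOut] at h
      by_cases hd : d
      · rw [if_pos hd] at h
        intro q hq
        rw [List.zip_cons_cons, List.mem_cons] at hq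
        rcases hq with rfl | hq
        · exact hd
        · exact ih Y h q hq
      · rw [if_neg hd] at h
        by_cases hxy : x = y
        · rw [if_pos hxy] at h; simp at h
        · rw [if_neg hxy] at h; simp at h

theorem finalOut_none (X : List (List Bool)) : ∀ (Y : List (List Bool × Bool)),
    finalOut X Y = none → ∃ q ∈ X.zip Y, q.2.2 = false ∧ q.1 ≠ q.2.1 := by
  induction X with
  | nil => intro Y h; simp [finalOut] at h
  | cons x X ih =>
    intro Y h
    obtain _ | ⟨⟨y, d⟩, Y⟩ := Y
    · simp [finalOut] at h
    · simp only [finalOut] at h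
      by_cases hd : d
      · rw [if_pos hd] at h
        obtain ⟨q, hq, h1⟩ := ih Y h
        exact ⟨q, by simp [hq], h1⟩
      · rw [if_neg hd] at h
        by_cases hxy : x = y
        · rw [if_pos hxy] at h; simp at h
        · exact ⟨(x, y, d), by simp, by simpa using hd, hxy⟩

theorem sum_rowsOf (u : List Letter) : ∀ cur : List Bool,
    ((rowsOf cur u).map fun l => l.length + 1).sum ≤ cur.length + u.length := by
  induction u with
  | nil => intro cur; simp [rowsOf]
  | cons a u ih =>
    intro cur
    cases a with
    | bit v =>
      simp only [rowsOf]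
      refine (ih _).trans ?_
      simp; omega
    | hash =>
      simp only [rowsOf, List.map_cons, List.sum_cons]
      have := ih []
      simp only [List.length_nil, List.length_cons] at this ⊢
      omega
    | dol =>
      simp only [rowsOf]
      refine (ih _).trans ?_
      simp

theorem decode_length : ∀ w : List Bool, 2 * (decode w).length ≤ w.length
  | [] => by simp [decode]
  | [a] => by simp [decode]
  | a :: b :: w => by
    have := decode_length w
    simp only [decode, List.length_cons]
    omega

theorem sum_range' (m : ℕ) : 2 * ((List.range' 1 m).map fun l => l + 1).sum = m * (m + 3) := by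
  induction m with
  | zero => simp
  | succ m ih =>
    rw [List.range'_concat, List.map_append, List.sum_append, Nat.mul_add, ih]
    simp
    ring

/-- bound for the number of rows -/
theorem rows_bound (w : List Bool) (m : ℕ) (t : List ℕ)
    (h : (rowsX w).map List.length = List.range' 1 m ++ t) : m ≤ Nat.sqrt w.length := by
  have h1 : ((rowsX w).map fun l => l.length + 1).sum ≤ (decode w).length := by
    refine (sum_rowsOf _ []).trans ?_
    simp only [List.length_nil, Nat.zero_add]
    exact (List.takeWhile_sublist _).length_le
  have h2 : (rowsX w).map (fun l => l.length + 1) =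
      ((rowsX w).map List.length).map fun l => l + 1 := by simp
  rw [h2, h, List.map_append, List.sum_append] at h1
  have h3 := sum_range' m
  have h4 := decode_length w
  have h5 : m * m ≤ m * (m + 3) := Nat.mul_le_mul_left _ (by omega)
  rw [Nat.le_sqrt]
  calc m * m ≤ m * (m + 3) := h5
    _ = 2 * ((List.range' 1 m).map fun l => l + 1).sum := h3.symm
    _ ≤ 2 * (decode w).length := by omega
    _ ≤ w.length := h4

/-- number of sweeps -/
def P (n : ℕ) : ℕ := (2 * Nat.sqrt n + 1) * (Nat.log 2 n + 1) + 3 * Nat.sqrt n + 5

theorem alg_run (w : List Bool) (κ : ℕ → Bool × Bool) :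
    ∃ o : Option Bool, sweeps ft fe κ (.parse none false) (w.map .raw) (P w.length) = Sum.inr o ∧
      (∀ b, o = some b → (b = true ↔ w ∈ Lang)) ∧
      (o = none → ∃ r, 1 ≤ r ∧ r ≤ Nat.sqrt w.length ∧
        (rowsX w).map List.length = List.range' 1 r ∧
        (rowsY w).map List.length = List.range' 1 r ∧
        ∃ p ∈ (rowsX w).zip (rowsY w), p.1 ≠ p.2 ∧
          ∀ j < Nat.log 2 r + 1, dot (coins κ r j) p.2 = dot (coins κ r j) p.1) := by
  -- words of the wrong shape are rejected
  have hrej : ∀ m, m ≤ P w.length →
      sweeps ft fe κ (.parse none false) (w.map .raw) m = Sum.inr (some false) → w ∉ Lang →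
      ∃ o : Option Bool, sweeps ft fe κ (.parse none false) (w.map .raw) (P w.length) =
        Sum.inr o ∧ (∀ b, o = some b → (b = true ↔ w ∈ Lang)) ∧
        (o = none → ∃ r, 1 ≤ r ∧ r ≤ Nat.sqrt w.length ∧
          (rowsX w).map List.length = List.range' 1 r ∧
          (rowsY w).map List.length = List.range' 1 r ∧
          ∃ p ∈ (rowsX w).zip (rowsY w), p.1 ≠ p.2 ∧
            ∀ j < Nat.log 2 r + 1, dot (coins κ r j) p.2 = dot (coins κ r j) p.1) := by
    intro m hm h hw
    refine ⟨some false, ?_, ?_, by simp⟩
    · obtain ⟨k, hk⟩ := Nat.exists_eq_add_of_le hm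
      rw [hk]
      exact sweeps_out ft fe κ _ _ m k _ h
    · intro b hb
      obtain rfl : b = false := by simpa using hb.symm
      simp [hw]
  rcases parse_run w κ with ⟨hd, h⟩ | ⟨trX, trY, hb1, hb2, hp⟩
  · refine hrej 2 (by unfold P; omega) h ?_
    rintro ⟨r, -, h2, p, hp, -⟩
    have : rowsY w = [] := by
      unfold rowsY
      rw [List.dropWhile_eq_nil_iff.2]
      · rfl
      · intro x hx
        have : x ≠ Letter.dol := by rintro rfl; exact hd hx
        simpa using this
    rw [this] at hp
    simp at hp
  · set X : List (List Bool × Bool) := (rowsX w).map fun x => (x, true) with hX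
    set Y : List (List Bool × Bool) := (rowsY w).map fun y => (y, false) with hY
    have hXl : X.map (fun r => r.1.length) = (rowsX w).map List.length := by
      rw [hX, List.map_map]; rfl
    have hYl : Y.map (fun r => r.1.length) = (rowsY w).map List.length := by
      rw [hY, List.map_map]; rfl
    by_cases hs : ∃ r, 1 ≤ r ∧ (rowsX w).map List.length = List.range' 1 r ∧
        (rowsY w).map List.length = List.range' 1 r
    · obtain ⟨r, hr, h1, h2⟩ := hs
      have hXr : (rowsX w).length = r := by simpa using congrArg List.length h1
      have hYr : (rowsY w).length = r := by simpa using congrArg List.length h2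
      have hrs : r ≤ Nat.sqrt w.length := rows_bound w r [] (by simpa using h1)
      have hfil : (X.filter fun r => r.2).length = r := by
        rw [List.filter_eq_self.2]
        · rw [hX, List.length_map, hXr]
        · intro a ha
          rw [hX, List.mem_map] at ha
          obtain ⟨x, -, rfl⟩ := ha
          rfl
      obtain ⟨X', trX', trY', hb3, hb4, h3, h4⟩ := rounds_run r κ true r hr X Y trX trY hb1 hb2
        (hXl.trans h1) (hYl.trans h2) hfil hr
      have hXf : X.map Prod.fst = rowsX w := by
        rw [hX, List.map_map]; simp [Function.comp_def]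
      rw [hXf] at h3 h4
      set R := Nat.log 2 r + 1 with hR
      set Y' := List.zipWith (fun x (y : List Bool × Bool) =>
        (y.1, y.2 || flag κ r R x y.1)) (rowsX w) Y with hY'
      have hX'l : X'.map (fun r => r.1.length) = List.range' 1 r := by
        have : X'.map (fun r => r.1.length) = (X'.map Prod.fst).map List.length := by
          rw [List.map_map]; rfl
        rw [this, h3, h1]
      have hYlen : Y.length = r := by rw [hY, List.length_map, hYr]
      have hY'l : Y'.map (fun r => r.1.length) = List.range' 1 r := by
        rw [← hYl.trans h2, hY']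
        apply List.ext_getElem
        · simp [hXr, hYlen]
        · intro i hi1 hi2
          simp
      obtain ⟨m, hm, h5⟩ := ck_run (fun i => κ (1 + ((2 * r + 1) * R + i))) X' Y' r trX' trY'
        hb3 hb4 (hX'l.trans hY'l.symm)
        (by rintro rfl; simp at h3; rw [h3] at hXr; simp at hXr; omega)
        (by
          intro x hx
          have : x.1.length ∈ X'.map (fun r => r.1.length) := List.mem_map.2 ⟨x, hx, rfl⟩
          rw [hX'l, List.mem_range'_1] at this
          omega)
      have hX'len : X'.length = r := by simpa using congrArg List.length hX'l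
      rw [hX'len] at hm
      have h6 := sweeps_add ft fe (fun i => κ (1 + i)) (sbc (κ 0) true)
        (tp (bX [] X) (bY [] Y) trX trY) ((2 * r + 1) * R) m _ _ h4
      rw [h5] at h6
      have h7 := hp _ _ h6
      rw [h3] at h7
      have hbound : 1 + ((2 * r + 1) * R + m) ≤ P w.length := by
        have hl : Nat.log 2 r ≤ Nat.log 2 w.length :=
          Nat.log_mono_right (hrs.trans (Nat.sqrt_le_self _))
        have : (2 * r + 1) * R ≤ (2 * Nat.sqrt w.length + 1) * (Nat.log 2 w.length + 1) :=
          Nat.mul_le_mul (by omega) (by omega)
        unfold P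
        omega
      refine ⟨finalOut (rowsX w) Y', ?_, ?_, ?_⟩
      · obtain ⟨k, hk⟩ := Nat.exists_eq_add_of_le hbound
        rw [hk]
        exact sweeps_out ft fe κ _ _ _ k _ h7
      · intro b hb
        have hmem : ∀ q ∈ (rowsX w).zip Y', (q.1, q.2.1) ∈ (rowsX w).zip (rowsY w) ∧
            q.2.2 = flag κ r R q.1 q.2.1 := by
          intro q hq
          obtain ⟨i, hi, rfl⟩ := List.mem_iff_getElem.1 hq
          simp only [List.length_zip, hY', List.length_zipWith, hY, List.length_map] at hi
          constructor
          · apply List.mem_iff_getElem.2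
            refine ⟨i, by simp; omega, ?_⟩
            simp [hY', hY]
          · simp [hY', hY]
        cases b
        · have hf := finalOut_false _ _ hb
          simp only [Bool.false_eq_true, false_iff]
          rintro ⟨r', -, -, p, hp, hpe⟩
          obtain ⟨i, hi, hpi⟩ := List.mem_iff_getElem.1 hp
          simp only [List.length_zip] at hi
          have hq : ((rowsX w).zip Y')[i]'(by simp [hY', hY]; omega) ∈ (rowsX w).zip Y' :=
            List.getElem_mem _
          have h8 := hf _ hq
          rw [(hmem _ hq).2] at h8
          simp only [List.getElem_zip, hY', List.getElem_zipWith, hY, List.getElem_map] at h8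
          rw [List.getElem_zip] at hpi
          rw [← hpi] at hpe
          simp only at hpe
          rw [hpe] at h8
          unfold flag at h8
          simp at h8
        · simp only [true_iff]
          obtain ⟨q, hq, hqe⟩ := finalOut_true _ _ hb
          exact ⟨r, h1, h2, (q.1, q.2.1), (hmem q hq).1, hqe⟩
      · intro hb
        obtain ⟨q, hq, hq1, hq2⟩ := finalOut_none _ _ hb
        obtain ⟨i, hi, rfl⟩ := List.mem_iff_getElem.1 hq
        simp only [List.length_zip, hY', List.length_zipWith, hY, List.length_map] at hi
        refine ⟨r, hr, hrs, h1, h2, ((rowsX w)[i]'(by omega), (rowsY w)[i]'(by omega)), ?_, ?_, ?_⟩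
        · apply List.mem_iff_getElem.2
          exact ⟨i, by simp; omega, by simp⟩
        · simpa [hY', hY] using hq2
        · simp only [List.getElem_zip, hY', List.getElem_zipWith, hY, List.getElem_map,
            Bool.false_or] at hq1
          unfold flag at hq1
          rw [decide_eq_false_iff_not] at hq1
          intro j hj
          by_contra hcon
          exact hq1 ⟨j, hj, hcon⟩
    · rcases bc_run (fun i => κ (1 + i)) (κ 0) true [] X Y (X.map fun r => r.1.length)
        (Y.map fun r => r.1.length) trX trY hb1 hb2 (by simp) (by simp) (Or.inl ⟨rfl, rfl⟩)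
        with h | ⟨-, m, tX', h1, h2⟩
      · obtain ⟨r', hr', h1, h2, -⟩ := h
        exfalso
        apply hs
        refine ⟨r', hr', ?_, ?_⟩
        · rw [← hXl, h1]; simp
        · rw [← hYl, h2]; simp
      · have h3 : (rowsX w).map List.length = List.range' 1 m ++ tX' := by
          rw [← hXl, h1]; simp
        have hms : m ≤ Nat.sqrt w.length := rows_bound w m tX' h3
        refine hrej _ ?_ (hp _ _ h2) ?_
        · unfold P; omega
        · rintro ⟨r, hr1, hr2, p, hp, -⟩
          apply hs
          refine ⟨r, ?_, hr1, hr2⟩
          by_contra hcon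
          obtain rfl : r = 0 := by omega
          simp at hr1
          rw [hr1] at hp
          simp at hp

end Pool.Agent.Helper65.OneTape
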